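import Mathlib

/-!
# Branching walks as multivariate polynomials
-/

set_option autoImplicit false

namespace Pool.Agent.H118R4.DCS

open MvPolynomial

section Bw

variable {V R S : Type} [Fintype V] [CommSemiring R] [CommSemiring S]

/-- generating functions of the branching walks of depth at most `t` from `v`; `x u` is the
weight of the vertex `u` -/
def bw (adj : V → V → Bool) (x : V → R) : ℕ → V → R
  | 0, _ => 0
  | t + 1, v => x v + bw adj x t v * ∑ u, if adj v u then bw adj x t u else 0

theorem map_bw (φ : R →+* S) (adj : V → V → Bool) (x : V → R) : ∀ (t : ℕ) (v : V),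
    φ (bw adj x t v) = bw adj (fun u => φ (x u)) t v
  | 0, v => by simp [bw]
  | t + 1, v => by
    rw [bw, bw, map_add, map_mul, map_sum, map_bw φ adj x t v]
    congr 2
    refine Finset.sum_congr rfl fun u _ => ?_
    split_ifs
    · exact map_bw φ adj x t u
    · simp

end Bw

section Pos

variable {V : Type} [Fintype V] [DecidableEq V]

/-- the exponent vector of the product of the variables of `D` -/
noncomputable def ind (D : Finset V) : V →₀ ℕ := Finsupp.onFinset D (fun v => if v ∈ D then 1 else 0)
  (fun v h => by by_contra h'; simp [h'] at h)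

omit [Fintype V] in
@[simp] theorem ind_apply (D : Finset V) (v : V) : ind D v = if v ∈ D then 1 else 0 := rfl

omit [Fintype V] in
theorem ind_inj {D E : Finset V} (h : ind D = ind E) : D = E := by
  ext v
  have := DFunLike.congr_fun h v
  simp only [ind_apply] at this
  by_cases h1 : v ∈ D <;> by_cases h2 : v ∈ E <;> simp_all

/-- the coefficient of the product of the variables of `D` does not vanish -/
def P (f : MvPolynomial V ℕ) (D : Finset V) : Prop := coeff (ind D) f ≠ 0

omit [Fintype V] in
theorem P_add {f g : MvPolynomial V ℕ} {D : Finset V} : P (f + g) D ↔ P f D ∨ P g D := by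
  unfold P
  rw [coeff_add]
  omega

omit [Fintype V] in
theorem P_zero {D : Finset V} : ¬ P (0 : MvPolynomial V ℕ) D := by simp [P]

omit [Fintype V] in
theorem P_one {D : Finset V} : P (1 : MvPolynomial V ℕ) D ↔ D = ∅ := by
  unfold P
  rw [coeff_one]
  have h0 : (ind (∅ : Finset V)) = 0 := by ext v; simp
  constructor
  · intro h
    by_contra hD
    apply h
    rw [if_neg]
    intro h1
    exact hD (ind_inj (h1.symm.trans h0.symm))
  · rintro rfl
    rw [h0]
    simp

omit [Fintype V] in
theorem P_X {v : V} {D : Finset V} : P (X v : MvPolynomial V ℕ) D ↔ D = {v} := by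
  unfold P
  rw [coeff_X']
  have h0 : (ind ({v} : Finset V)) = Finsupp.single v 1 := by
    ext u
    simp only [ind_apply, Finset.mem_singleton, Finsupp.single_apply]
    by_cases h : u = v
    · simp [h]
    · rw [if_neg h, if_neg (fun h' => h h'.symm)]
  constructor
  · intro h
    by_contra hD
    apply h
    rw [if_neg]
    intro h1
    exact hD (ind_inj (h1.symm.trans h0.symm))
  · rintro rfl
    rw [h0]
    simp

omit [Fintype V] in
theorem P_mul {f g : MvPolynomial V ℕ} {D : Finset V} :
    P (f * g) D ↔ ∃ D1 D2 : Finset V, Disjoint D1 D2 ∧ D1 ∪ D2 = D ∧ P f D1 ∧ P g D2 := by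
  unfold P
  rw [coeff_mul]
  constructor
  · intro h
    obtain ⟨⟨a, b⟩, hab, hne⟩ := Finset.exists_ne_zero_of_sum_ne_zero h
    rw [Finset.HasAntidiagonal.mem_antidiagonal] at hab
    simp only at hab hne
    have hv : ∀ v, a v + b v = if v ∈ D then 1 else 0 := fun v => by
      have := DFunLike.congr_fun hab v
      simpa using this
    have ha : ind (D.filter (fun v => a v = 1)) = a := by
      ext v
      have := hv v
      simp only [ind_apply, Finset.mem_filter]
      by_cases h1 : v ∈ D <;> by_cases h2 : a v = 1 <;> simp [h1, h2] at this ⊢ <;> omega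
    have hb : ind (D.filter (fun v => b v = 1)) = b := by
      ext v
      have := hv v
      simp only [ind_apply, Finset.mem_filter]
      by_cases h1 : v ∈ D <;> by_cases h2 : b v = 1 <;> simp [h1, h2] at this ⊢ <;> omega
    refine ⟨D.filter (fun v => a v = 1), D.filter (fun v => b v = 1), ?_, ?_, ?_, ?_⟩
    · rw [Finset.disjoint_left]
      intro v h1 h2
      have := hv v
      rw [Finset.mem_filter] at h1 h2
      rw [h1.2, h2.2, if_pos h1.1] at this
      omega
    · ext v
      have := hv v
      simp only [Finset.mem_union, Finset.mem_filter]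
      by_cases h1 : v ∈ D
      · simp only [h1, true_and, iff_true, if_true] at this ⊢
        omega
      · simp [h1]
    · rw [ha]; exact left_ne_zero_of_mul hne
    · rw [hb]; exact right_ne_zero_of_mul hne
  · rintro ⟨D1, D2, hd, rfl, h1, h2⟩
    have hmem : (ind D1, ind D2) ∈ Finset.HasAntidiagonal.antidiagonal (ind (D1 ∪ D2)) := by
      rw [Finset.HasAntidiagonal.mem_antidiagonal]
      ext v
      simp only [Finsupp.coe_add, Pi.add_apply, ind_apply, Finset.mem_union]
      by_cases a : v ∈ D1
      · have : v ∉ D2 := Finset.disjoint_left.1 hd a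
        simp [a, this]
      · by_cases b : v ∈ D2 <;> simp [a, b]
    intro h
    have := (Finset.sum_eq_zero_iff.1 h) _ hmem
    simp only [mul_eq_zero] at this
    rcases this with h | h
    · exact h1 h
    · exact h2 h

omit [Fintype V] in
theorem P_sum {ι : Type} {s : Finset ι} {f : ι → MvPolynomial V ℕ} {D : Finset V} :
    P (∑ i ∈ s, f i) D ↔ ∃ i ∈ s, P (f i) D := by
  unfold P
  rw [coeff_sum]
  constructor
  · intro h
    exact Finset.exists_ne_zero_of_sum_ne_zero h
  · rintro ⟨i, hi, h⟩ h'
    exact h (Finset.sum_eq_zero_iff.1 h' i hi)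

/-- products of several polynomials -/
theorem P_prod {ι : Type} [DecidableEq ι] {s : Finset ι} {f : ι → MvPolynomial V ℕ} :
    ∀ {D : Finset V}, P (∏ i ∈ s, f i) D ↔ ∃ E : ι → Finset V,
      (∀ i ∈ s, ∀ j ∈ s, i ≠ j → Disjoint (E i) (E j)) ∧ s.biUnion E = D ∧
        ∀ i ∈ s, P (f i) (E i) := by
  induction s using Finset.induction_on with
  | empty =>
    intro D
    rw [Finset.prod_empty, P_one]
    constructor
    · rintro rfl
      exact ⟨fun _ => ∅, by simp, by simp, by simp⟩
    · rintro ⟨E, -, h, -⟩
      simpa using h.symm
  | insert a s ha ih =>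
    intro D
    rw [Finset.prod_insert ha, P_mul]
    constructor
    · rintro ⟨D1, D2, hd, rfl, h1, h2⟩
      obtain ⟨E, hE1, hE2, hE3⟩ := ih.1 h2
      have hne : ∀ i ∈ s, i ≠ a := fun i hi h => ha (h ▸ hi)
      refine ⟨Function.update E a D1, ?_, ?_, ?_⟩
      · intro i hi j hj hij
        rcases Finset.mem_insert.1 hi with hia | his
        · rcases Finset.mem_insert.1 hj with hja | hjs
          · exact absurd (hia.trans hja.symm) hij
          · rw [hia, Function.update_self, Function.update_of_ne (hne j hjs)]
            refine hd.mono_right ?_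
            rw [← hE2]
            exact Finset.subset_biUnion_of_mem E hjs
        · rcases Finset.mem_insert.1 hj with hja | hjs
          · rw [hja, Function.update_self, Function.update_of_ne (hne i his)]
            refine (hd.mono_right ?_).symm
            rw [← hE2]
            exact Finset.subset_biUnion_of_mem E his
          · rw [Function.update_of_ne (hne i his), Function.update_of_ne (hne j hjs)]
            exact hE1 i his j hjs hij
      · rw [Finset.biUnion_insert, Function.update_self, ← hE2]
        congr 1
        refine Finset.biUnion_congr rfl fun i hi => ?_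
        rw [Function.update_of_ne (hne i hi)]
      · intro i hi
        rcases Finset.mem_insert.1 hi with rfl | hi
        · rwa [Function.update_self]
        · rw [Function.update_of_ne (hne i hi)]
          exact hE3 i hi
    · rintro ⟨E, hE1, rfl, hE3⟩
      refine ⟨E a, s.biUnion E, ?_, by rw [Finset.biUnion_insert], hE3 a (by simp),
        ih.2 ⟨E, fun i hi j hj => hE1 i (by simp [hi]) j (by simp [hj]), rfl,
          fun i hi => hE3 i (by simp [hi])⟩⟩
      rw [Finset.disjoint_biUnion_right]
      intro i hi
      exact hE1 a (by simp) i (by simp [hi]) (fun h => ha (h ▸ hi))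

end Pos

end Pool.Agent.H118R4.DCS
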