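import Pool.Agent.H118R4.DCS.Sieve

/-!
# Inclusion–exclusion over the sets containing the roots
-/

set_option autoImplicit false

namespace Pool.Agent.H118R4.DCS

open MvPolynomial

/-- the set with number `j` among the sets containing all marked positions -/
def setOf : List Bool → ℕ → List Bool
  | [], _ => []
  | true :: l, j => true :: setOf l j
  | false :: l, j => decide (j % 2 = 1) :: setOf l (j / 2)

theorem length_setOf : ∀ (l : List Bool) (j : ℕ), (setOf l j).length = l.length
  | [], _ => rfl
  | true :: l, j => by simp [setOf, length_setOf l]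
  | false :: l, j => by simp [setOf, length_setOf l]

theorem sum_range_two_mul (h : ℕ → ℤ) : ∀ N : ℕ,
    ∑ j ∈ Finset.range (2 * N), h j = ∑ j ∈ Finset.range N, (h (2 * j) + h (2 * j + 1))
  | 0 => by simp
  | N + 1 => by
    rw [Finset.sum_range_succ (fun j => h (2 * j) + h (2 * j + 1)), ← sum_range_two_mul h N,
      show 2 * (N + 1) = 2 * N + 1 + 1 by ring, Finset.sum_range_succ, Finset.sum_range_succ]
    ring

theorem setOf_sum : ∀ (mask : List Bool) (g : ℕ → Bool → ℤ),
    ∑ j ∈ Finset.range (2 ^ mask.count false), ∏ v ∈ Finset.range mask.length,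
      g v ((setOf mask j).getD v false) =
    ∏ v ∈ Finset.range mask.length,
      (if mask.getD v false then g v true else g v true + g v false)
  | [], g => by simp
  | true :: l, g => by
    have hc : (true :: l).count false = l.count false := by simp
    rw [hc, List.length_cons, Finset.prod_range_succ']
    simp only [List.getD_cons_succ, List.getD_cons_zero, if_true]
    rw [← setOf_sum l (fun v b => g (v + 1) b), Finset.sum_mul]
    refine Finset.sum_congr rfl fun j _ => ?_
    rw [Finset.prod_range_succ']
    simp [setOf]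
  | false :: l, g => by
    have hc : (false :: l).count false = l.count false + 1 := by simp
    rw [hc, List.length_cons, Finset.prod_range_succ', pow_succ, mul_comm _ 2,
      sum_range_two_mul]
    simp only [List.getD_cons_succ, List.getD_cons_zero, Bool.false_eq_true, if_false]
    rw [← setOf_sum l (fun v b => g (v + 1) b), Finset.sum_mul]
    refine Finset.sum_congr rfl fun j _ => ?_
    rw [Finset.prod_range_succ', Finset.prod_range_succ']
    have e1 : (2 * j) / 2 = j := by omega
    have e2 : (2 * j + 1) / 2 = j := by omega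
    have e3 : (2 * j) % 2 = 0 := by omega
    have e4 : (2 * j + 1) % 2 = 1 := by omega
    simp only [setOf, e1, e2, e3, e4, List.getD_cons_succ, List.getD_cons_zero]
    simp
    ring

section

variable {n : ℕ} (G : SimpleGraph (Fin n)) [DecidableRel G.Adj] {k : ℕ}
  (Z : Fin k → Finset (Fin n)) (r : Fin k → Fin n)

/-- the weights of the vertices for the set with number `j` -/
def wts (mask : List Bool) (y j : ℕ) (v : Fin n) : ℕ :=
  if (setOf mask j).getD v false then y else 0

/-- the sign of the set with number `j` -/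
def sgn (mask : List Bool) (j : ℕ) : ℤ :=
  (-1) ^ (∑ v : Fin n, if (setOf mask j).getD v false then 0 else 1 : ℕ)

/-- the signed sum over the sets containing the roots -/
noncomputable def total (mask : List Bool) (y : ℕ) : ℤ :=
  ∑ j ∈ Finset.range (2 ^ mask.count false),
    sgn (n := n) mask j * ((eval (wts mask y j) (Q G Z r) : ℕ) : ℤ)

theorem total_eq {mask : List Bool} (hmask : mask.length = n) (y : ℕ) :
    total G Z r mask y = ∑ d ∈ (Q G Z r).support, ((coeff d (Q G Z r) : ℕ) : ℤ) *
      ∏ v : Fin n, (if mask.getD v false then (y : ℤ) ^ d v else (y : ℤ) ^ d v - 0 ^ d v) := by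
  unfold total
  simp only [eval_eq', Nat.cast_sum, Finset.mul_sum]
  rw [Finset.sum_comm]
  refine Finset.sum_congr rfl fun d _ => ?_
  let d' : ℕ → ℕ := fun v => if h : v < n then d ⟨v, h⟩ else 0
  have hd' : ∀ v : Fin n, d' v = d v := fun v => by simp [d']
  have h1 := setOf_sum mask (fun v b => (if b then 1 else -1) * ((if b then (y : ℤ) else 0) ^ d' v))
  rw [hmask, Finset.prod_range] at h1
  have h2 : ∀ v : Fin n, (if mask.getD v false then (y : ℤ) ^ d v else (y : ℤ) ^ d v - 0 ^ d v) =
      (if mask.getD (v : ℕ) false then ((if true then 1 else -1) *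
        ((if true then (y : ℤ) else 0) ^ d' v)) else (((if true then 1 else -1) *
        ((if true then (y : ℤ) else 0) ^ d' v)) + ((if false then 1 else -1) *
        ((if false then (y : ℤ) else 0) ^ d' v)))) := fun v => by
    rw [hd']
    simp only [if_true, one_mul, Bool.false_eq_true, if_false]
    split_ifs
    · rfl
    · ring
  rw [Finset.prod_congr rfl (fun v _ => h2 v)]
  have h3 : ∀ j, sgn (n := n) mask j * (((coeff d (Q G Z r)) * ∏ v : Fin n,
      wts mask y j v ^ d v : ℕ) : ℤ) = ((coeff d (Q G Z r) : ℕ) : ℤ) *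
        ∏ v ∈ Finset.range n, ((if (setOf mask j).getD v false then 1 else -1) *
          ((if (setOf mask j).getD v false then (y : ℤ) else 0) ^ d' v)) := fun j => by
    rw [Finset.prod_range, Finset.prod_mul_distrib, sgn, ← Finset.prod_pow_eq_pow_sum]
    push_cast
    have h4 : ∀ v : Fin n, ((wts mask y j v : ℕ) : ℤ) ^ d v =
        (if (setOf mask j).getD v false then (y : ℤ) else 0) ^ d' v := fun v => by
      rw [hd', wts]
      split_ifs <;> simp
    have h5 : ∀ v : Fin n, (-1 : ℤ) ^ (if (setOf mask j).getD v false then 0 else 1) =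
        (if (setOf mask j).getD v false then 1 else -1) := fun v => by
      split_ifs <;> simp
    rw [Finset.prod_congr rfl (fun v _ => h4 v), Finset.prod_congr rfl (fun v _ => h5 v)]
    ring
  rw [Finset.sum_congr rfl (fun j _ => h3 j), ← Finset.mul_sum, h1]

theorem total_modEq {mask : List Bool} (hmask : mask.length = n) (y : ℕ)
    (hr : ∀ v : Fin n, mask.getD v false = true → ∃ i, v = r i) :
    (y : ℤ) ^ (n + 1) ∣ total G Z r mask y -
      ((coeff (ind Finset.univ) (Q G Z r) : ℕ) : ℤ) * (y : ℤ) ^ n := by
  rw [total_eq G Z r hmask]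
  have h1 : ((coeff (ind Finset.univ) (Q G Z r) : ℕ) : ℤ) * (y : ℤ) ^ n =
      ∑ d ∈ (Q G Z r).support, (if d = ind Finset.univ then
        ((coeff (ind Finset.univ) (Q G Z r) : ℕ) : ℤ) * (y : ℤ) ^ n else 0) := by
    rw [Finset.sum_ite_eq']
    split_ifs with h
    · rfl
    · rw [mem_support_iff, not_not] at h
      simp [h]
  rw [h1, ← Finset.sum_sub_distrib]
  refine Finset.dvd_sum fun d hd => ?_
  rw [mem_support_iff] at hd
  by_cases h0 : ∀ v, d v ≠ 0
  · have h2 : ∏ v : Fin n, (if mask.getD v false then (y : ℤ) ^ d v else (y : ℤ) ^ d v - 0 ^ d v) =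
        (y : ℤ) ^ (∑ v, d v) := by
      rw [← Finset.prod_pow_eq_pow_sum]
      refine Finset.prod_congr rfl fun v _ => ?_
      rw [zero_pow (h0 v), sub_zero, ite_self]
    rw [h2]
    by_cases h3 : d = ind Finset.univ
    · rw [if_pos h3, h3]
      simp
    · rw [if_neg h3, sub_zero]
      refine Dvd.dvd.mul_left (pow_dvd_pow _ ?_) _
      obtain ⟨u, hu⟩ : ∃ u, d u ≠ 1 := by
        by_contra h
        push Not at h
        apply h3
        ext v
        simp [h v]
      have h4 : ∑ _v : Fin n, 1 < ∑ v, d v := by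
        refine Finset.sum_lt_sum (fun v _ => Nat.one_le_iff_ne_zero.2 (h0 v)) ⟨u, by simp, ?_⟩
        have := h0 u
        omega
      simpa using h4
  · push Not at h0
    obtain ⟨v, hv⟩ := h0
    have h2 : ∏ v : Fin n, (if mask.getD v false then (y : ℤ) ^ d v else
        (y : ℤ) ^ d v - 0 ^ d v) = 0 := by
      refine Finset.prod_eq_zero (Finset.mem_univ v) ?_
      rw [if_neg, hv]
      · simp
      · intro h
        obtain ⟨i, hi⟩ := hr v h
        exact root_pos G hd i (hi ▸ hv)
    rw [h2, if_neg]
    · simp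
    · rintro rfl
      simp at hv

theorem total_iff {mask : List Bool} (hmask : mask.length = n) (hn : 0 < n)
    (hr : ∀ v : Fin n, mask.getD v false = true → ∃ i, v = r i) :
    (((2 ^ ((n + 3) * n + 1)) ^ (n + 1) : ℕ) : ℤ) ∣ total G Z r mask (2 ^ ((n + 3) * n + 1)) ↔
      ¬ P (Q G Z r) Finset.univ := by
  have h1 := total_modEq G Z r hmask (2 ^ ((n + 3) * n + 1)) hr
  have h2 := coeff_Q_lt G hn (Fintype.card_fin n) Z r
  unfold P
  rw [not_not]
  set y := 2 ^ ((n + 3) * n + 1) with hy
  have hy0 : 0 < y := by positivity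
  set q := coeff (ind Finset.univ) (Q G Z r) with hq
  have h3 : ((y ^ (n + 1) : ℕ) : ℤ) ∣ total G Z r mask y ↔
      ((y ^ (n + 1) : ℕ) : ℤ) ∣ ((q * y ^ n : ℕ) : ℤ) := by
    push_cast
    exact dvd_iff_dvd_of_dvd_sub h1
  rw [h3, Int.natCast_dvd_natCast, pow_succ, mul_comm (y ^ n) y,
    Nat.mul_dvd_mul_iff_right (pow_pos hy0 n)]
  constructor
  · intro h
    exact Nat.eq_zero_of_dvd_of_lt h h2
  · intro h
    rw [h]
    exact dvd_zero _

end

end Pool.Agent.H118R4.DCS
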