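import Pool.Agent.H118R4.DCS.While
import Pool.Agent.H118R4.DCS.IE

/-!
# The algorithm: definitions and polynomial running time of one round
-/

set_option autoImplicit false

namespace Pool.Agent.H118R4.DCS

open Pool.Agent.NPC

/-- an instance: adjacency matrix and terminal sets -/
abbrev Inst := List (List Bool) × List (List ℕ)

def nn (I : Inst) : ℕ := I.1.length
def kk (I : Inst) : ℕ := I.2.length
def ex (I : Inst) : ℕ := (nn I + 3) * nn I + 1
def yy (I : Inst) : ℕ := 2 ^ ex I
def MM (I : Inst) : ℕ := 2 ^ (ex I * (nn I + 1))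

/-- the root of a terminal set -/
def rt (I : Inst) (i : ℕ) : ℕ := (I.2.getD i []).getD 0 0

/-- may the tree with index `i` use the vertex `v`? -/
def okv (I : Inst) (i v : ℕ) : Bool :=
  (List.range (kk I)).all fun j => decide (j = i) || !decide (v ∈ I.2.getD j [])

/-- the marks of the roots -/
def maskOf (I : Inst) : List Bool :=
  (List.range (nn I)).map fun v => (List.range (kk I)).any fun i => decide (rt I i = v)

/-- the weights of the vertices for the tree with index `i` -/
def wl (I : Inst) (X : List Bool) (i : ℕ) : List ℕ :=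
  (List.range (nn I)).map fun v => if X.getD v false = true ∧ okv I i v = true then yy I else 0

/-- one round of the dynamic program -/
def stepv (I : Inst) (xs f : List ℕ) : List ℕ :=
  (List.range (nn I)).map fun v => (xs.getD v 0 + f.getD v 0 *
    ((List.range (nn I)).map fun u =>
      if (I.1.getD v []).getD u false = true then f.getD u 0 else 0).sum) % MM I

/-- the values of the branching walks -/
def walk (I : Inst) (xs : List ℕ) : List ℕ := (stepv I xs)^[nn I] []

/-- the factors of the value of the polynomial -/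
def facs (I : Inst) (X : List Bool) : List ℕ :=
  (List.range (kk I)).map (fun i => (walk I (wl I X i)).getD (rt I i) 0) ++
    (List.range (nn I)).map (fun v =>
      if X.getD v false = true ∧ okv I (kk I) v = true then 1 + yy I else 1)

/-- the value of the polynomial -/
def valX (I : Inst) (X : List Bool) : ℕ := (facs I X).foldl (fun a b => a * b % MM I) 1 % MM I

/-- the number of positions outside `X` -/
def par (I : Inst) (X : List Bool) : ℕ :=
  ((List.range (nn I)).map fun v => if X.getD v false = true then 0 else 1).sum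

/-- the new accumulator -/
def nxt (I : Inst) (X : List Bool) (acc : ℕ) : ℕ :=
  if par I X % 2 = 0 then (acc + valX I X) % MM I else (acc + (MM I - valX I X)) % MM I

/-- the number of rounds -/
def rounds (I : Inst) : ℕ := 2 ^ (maskOf I).count false

/-- one round -/
def rnd (s : Bool × (Inst × ℕ × ℕ)) : Bool × (Inst × ℕ × ℕ) :=
  (decide (s.2.2.1 + 1 < rounds s.2.1),
    (s.2.1, s.2.2.1 + 1, nxt s.2.1 (setOf (maskOf s.2.1) s.2.2.1) s.2.2.2))

/-! ### Polynomial time -/

section

open NPC.Poly

variable {α β : Type} [TEnc α] [TEnc β]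

theorem pow2 {n : α → ℕ} (hn : UPoly n) : Poly (fun a => 2 ^ n a) := by
  have h1 : Poly (fun a => (List.range (n a)).map (fun _ => false) ++ [true]) :=
    append (map (F := fun _ _ => false) hn.range (NPC.Poly.const false)) (NPC.Poly.const [true])
  refine (valBits h1).congr fun a => ?_
  have : (List.range (n a)).map (fun _ => false) = List.replicate (n a) false := by
    rw [List.eq_replicate_iff]
    refine ⟨by simp, fun b hb => ?_⟩
    rw [List.mem_map] at hb
    obtain ⟨_, _, rfl⟩ := hb
    rfl
  rw [this, valB_replicate_false]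
  simp

theorem nn_u : UPoly nn := UPoly.length (fst NPC.Poly.id)
theorem kk_u : UPoly kk := UPoly.length (snd NPC.Poly.id)
theorem ex_u : UPoly ex := (((nn_u.add (UPoly.const 3)).mul nn_u).add (UPoly.const 1))
theorem yy_p : Poly yy := pow2 ex_u
theorem MM_p : Poly MM := pow2 (ex_u.mul (nn_u.add (UPoly.const 1)))

theorem rt_p {f : α → Inst} {g : α → ℕ} (hf : Poly f) (hg : Poly g) :
    Poly (fun a => rt (f a) (g a)) :=
  getD (getD (snd hf) hg (NPC.Poly.const [])) (NPC.Poly.const 0) (NPC.Poly.const 0)

theorem okv_p {f : α → Inst} {g h : α → ℕ} (hf : Poly f) (hg : Poly g) (hh : Poly h) :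
    Poly (fun a => okv (f a) (g a) (h a)) := by
  refine all (l := fun a => List.range (kk (f a)))
    (p := fun a j => decide (j = g a) || !decide (h a ∈ (f a).2.getD j []))
    ((kk_u.comp hf).range) ?_
  refine NPC.Poly.or (decide_eq (snd NPC.Poly.id) (hg.comp (fst NPC.Poly.id))) (NPC.Poly.not
    (decide_mem (hh.comp (fst NPC.Poly.id)) (getD (snd (hf.comp (fst NPC.Poly.id))) (snd NPC.Poly.id)
      (NPC.Poly.const []))))

theorem maskOf_p : Poly maskOf := by
  refine map (l := fun I : Inst => List.range (nn I))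
    (F := fun I v => (List.range (kk I)).any fun i => decide (rt I i = v)) nn_u.range ?_
  refine any (l := fun p : Inst × ℕ => List.range (kk p.1))
    (p := fun p i => decide (rt p.1 i = p.2)) (kk_u.comp (fst NPC.Poly.id)).range ?_
  exact decide_eq (rt_p (fst (fst NPC.Poly.id)) (snd NPC.Poly.id)) (snd (fst NPC.Poly.id))

theorem wl_p : Poly (fun p : Inst × List Bool × ℕ => wl p.1 p.2.1 p.2.2) := by
  refine map (l := fun p : Inst × List Bool × ℕ => List.range (nn p.1))
    (F := fun p v => if p.2.1.getD v false = true ∧ okv p.1 p.2.2 v = true then yy p.1 else 0)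
    (nn_u.comp (fst NPC.Poly.id)).range ?_
  refine ite (decide_and (decide_bool (getD (fst (snd (fst NPC.Poly.id))) (snd NPC.Poly.id)
    (NPC.Poly.const false))) (decide_bool (okv_p (fst (fst NPC.Poly.id)) (snd (snd (fst NPC.Poly.id)))
      (snd NPC.Poly.id)))) (yy_p.comp (fst (fst NPC.Poly.id))) (NPC.Poly.const 0)

theorem stepv_p : Poly (fun p : (Inst × List ℕ) × List ℕ => stepv p.1.1 p.1.2 p.2) := by
  refine map (l := fun p : (Inst × List ℕ) × List ℕ => List.range (nn p.1.1))
    (F := fun p v => (p.1.2.getD v 0 + p.2.getD v 0 * ((List.range (nn p.1.1)).map fun u =>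
      if (p.1.1.1.getD v []).getD u false = true then p.2.getD u 0 else 0).sum) % MM p.1.1)
    (nn_u.comp (fst (fst NPC.Poly.id))).range ?_
  refine mod (add (getD (snd (fst (fst NPC.Poly.id))) (snd NPC.Poly.id) (NPC.Poly.const 0))
    (mul (getD (snd (fst NPC.Poly.id)) (snd NPC.Poly.id) (NPC.Poly.const 0)) (NPC.Poly.sum ?_)))
    (MM_p.comp (fst (fst (fst NPC.Poly.id))))
  refine map (l := fun p : ((Inst × List ℕ) × List ℕ) × ℕ => List.range (nn p.1.1.1))
    (F := fun p u => if (p.1.1.1.1.getD p.2 []).getD u false = true then p.1.2.getD u 0 else 0)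
    (nn_u.comp (fst (fst (fst NPC.Poly.id)))).range ?_
  refine ite (decide_bool (getD (getD (fst (fst (fst (fst (fst NPC.Poly.id))))) (snd (fst NPC.Poly.id))
    (NPC.Poly.const [])) (snd NPC.Poly.id) (NPC.Poly.const false))) (getD (snd (fst (fst NPC.Poly.id)))
      (snd NPC.Poly.id) (NPC.Poly.const 0)) (NPC.Poly.const 0)

theorem MM_pos (I : Inst) : 0 < MM I := by unfold MM; positivity

theorem sz_stepv (I : Inst) (xs f : List ℕ) :
    sz (stepv I xs f) ≤ nn I * (2 * sz (MM I) + 1) + 1 := by
  have h := sz_le_length_mul (stepv I xs f) (2 * sz (MM I)) (by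
    intro a ha
    rw [stepv, List.mem_map] at ha
    obtain ⟨v, -, rfl⟩ := ha
    exact sz_nat_mono_le (Nat.mod_lt _ (MM_pos I)).le)
  refine h.trans (le_of_eq ?_)
  simp [stepv]

theorem walk_p : Poly (fun p : Inst × List ℕ => walk p.1 p.2) := by
  obtain ⟨r, hr⟩ := MM_p.sz_le
  refine (iterLen (l := fun p : Inst × List ℕ => p.1.1) (s := fun _ => ([] : List ℕ))
    (F := fun p f => stepv p.1 p.2 f) (fst (fst NPC.Poly.id)) (NPC.Poly.const []) stepv_p
    (Polynomial.X * (Polynomial.C 2 * r + Polynomial.C 1) + Polynomial.C 1) ?_).congr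
      fun p => rfl
  intro p k hk
  have h1 : r.eval (sz p.1) ≤ r.eval (sz p) := eval_mono r (by
    obtain ⟨a, b⟩ := p
    simp only [sz_pair]
    omega)
  have h2 : nn p.1 ≤ sz p := by
    have := length_lt_sz p.1.1
    obtain ⟨⟨a, a'⟩, b⟩ := p
    simp only [sz_pair, nn] at *
    omega
  simp only [Polynomial.eval_add, Polynomial.eval_mul, Polynomial.eval_C, Polynomial.eval_X]
  rcases k with _ | k
  · simp
  · rw [Function.iterate_succ_apply']
    refine (sz_stepv _ _ _).trans (Nat.add_le_add_right (Nat.mul_le_mul h2 ?_) 1)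
    have := hr p.1
    omega

end

end Pool.Agent.H118R4.DCS
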