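import Pool.Agent.H118R4.DCS.Algo

/-!
# Polynomial running time of one round
-/

set_option autoImplicit false

namespace Pool.Agent.H118R4.DCS

open Pool.Agent.NPC

section

open NPC.Poly

variable {α β : Type} [TEnc α] [TEnc β]

theorem facs_p : Poly (fun p : Inst × List Bool => facs p.1 p.2) := by
  refine append (map (l := fun p : Inst × List Bool => List.range (kk p.1))
    (F := fun p i => (walk p.1 (wl p.1 p.2 i)).getD (rt p.1 i) 0)
      (kk_u.comp (fst NPC.Poly.id)).range ?_)
    (map (l := fun p : Inst × List Bool => List.range (nn p.1))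
      (F := fun p v => if p.2.getD v false = true ∧ okv p.1 (kk p.1) v = true then 1 + yy p.1
        else 1) (nn_u.comp (fst NPC.Poly.id)).range ?_)
  · refine getD (walk_p.comp (pair (fst (fst NPC.Poly.id)) (wl_p.comp (pair (fst (fst NPC.Poly.id))
      (pair (snd (fst NPC.Poly.id)) (snd NPC.Poly.id)))))) (rt_p (fst (fst NPC.Poly.id)) (snd NPC.Poly.id))
      (NPC.Poly.const 0)
  · refine ite (decide_and (decide_bool (getD (snd (fst NPC.Poly.id)) (snd NPC.Poly.id)
      (NPC.Poly.const false))) (decide_bool (okv_p (fst (fst NPC.Poly.id))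
        ((kk_u.comp (fst (fst NPC.Poly.id))).toPoly) (snd NPC.Poly.id))))
      (add (NPC.Poly.const 1) (yy_p.comp (fst (fst NPC.Poly.id)))) (NPC.Poly.const 1)

theorem valX_p : Poly (fun p : Inst × List Bool => valX p.1 p.2) := by
  obtain ⟨r, hr⟩ := MM_p.sz_le
  refine mod (foldl (l := fun p : Inst × List Bool => facs p.1 p.2) (s := fun _ => 1)
    (F := fun p a b => a * b % MM p.1) facs_p (NPC.Poly.const 1) ?_
    (Polynomial.C 2 * r + Polynomial.C (sz 1)) ?_) (MM_p.comp (fst NPC.Poly.id))
  · exact mod (mul (fst (snd NPC.Poly.id)) (snd (snd NPC.Poly.id))) (MM_p.comp (fst (fst NPC.Poly.id)))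
  · intro p k hk
    have h1 : r.eval (sz p.1) ≤ r.eval (sz p) := eval_mono r (by
      obtain ⟨a, b⟩ := p
      simp only [sz_pair]
      omega)
    have h2 := hr p.1
    have key : ∀ (l : List ℕ) (s : ℕ), sz s ≤ 2 * sz (MM p.1) + sz 1 →
        sz (l.foldl (fun a b => a * b % MM p.1) s) ≤ 2 * sz (MM p.1) + sz 1 := by
      intro l
      induction l with
      | nil => intro s hs; exact hs
      | cons b l ih =>
        intro s _
        refine ih _ ?_
        have := sz_nat_mono_le (Nat.mod_lt (s * b) (MM_pos p.1)).le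
        exact this.trans (by omega)
    have h3 := key ((facs p.1 p.2).take k) 1 (by omega)
    simp only [Polynomial.eval_add, Polynomial.eval_mul, Polynomial.eval_C]
    omega

theorem par_p : Poly (fun p : Inst × List Bool => par p.1 p.2) := by
  refine NPC.Poly.sum (map (l := fun p : Inst × List Bool => List.range (nn p.1))
    (F := fun p v => if p.2.getD v false = true then 0 else 1)
      (nn_u.comp (fst NPC.Poly.id)).range ?_)
  exact ite (decide_bool (getD (snd (fst NPC.Poly.id)) (snd NPC.Poly.id) (NPC.Poly.const false)))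
    (NPC.Poly.const 0) (NPC.Poly.const 1)

theorem nxt_p : Poly (fun p : (Inst × List Bool) × ℕ => nxt p.1.1 p.1.2 p.2) := by
  refine ite (decide_eq (mod (par_p.comp (fst NPC.Poly.id)) (NPC.Poly.const 2)) (NPC.Poly.const 0))
    (mod (add (snd NPC.Poly.id) (valX_p.comp (fst NPC.Poly.id))) (MM_p.comp (fst (fst NPC.Poly.id))))
    (mod (add (snd NPC.Poly.id) (NPC.Poly.sub (MM_p.comp (fst (fst NPC.Poly.id)))
      (valX_p.comp (fst NPC.Poly.id)))) (MM_p.comp (fst (fst NPC.Poly.id))))

/-- the fold computing `setOf` -/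
def sstep (s : List Bool × ℕ) (b : Bool) : List Bool × ℕ :=
  if b = true then (s.1 ++ [true], s.2) else (s.1 ++ [decide (s.2 % 2 = 1)], s.2 / 2)

theorem foldl_sstep : ∀ (l : List Bool) (s : List Bool × ℕ),
    (l.foldl sstep s).1 = s.1 ++ setOf l s.2
  | [], s => by simp [setOf]
  | true :: l, s => by
    rw [List.foldl_cons, foldl_sstep l]
    simp [sstep, setOf]
  | false :: l, s => by
    rw [List.foldl_cons, foldl_sstep l]
    simp [sstep, setOf]

theorem sstep_bound : ∀ (l : List Bool) (s : List Bool × ℕ),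
    (l.foldl sstep s).1.length = s.1.length + l.length ∧ (l.foldl sstep s).2 ≤ s.2
  | [], s => by simp
  | b :: l, s => by
    rw [List.foldl_cons]
    obtain ⟨h1, h2⟩ := sstep_bound l (sstep s b)
    cases b
    · simp only [sstep, Bool.false_eq_true, if_false] at h1 h2 ⊢
      refine ⟨?_, h2.trans (Nat.div_le_self _ _)⟩
      rw [h1]
      simp
      omega
    · simp only [sstep, if_true] at h1 h2 ⊢
      refine ⟨?_, h2⟩
      rw [h1]
      simp
      omega

theorem setOf_p : Poly (fun p : List Bool × ℕ => setOf p.1 p.2) := by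
  refine (fst (foldl (l := fun p : List Bool × ℕ => p.1) (s := fun p => (([], p.2) :
    List Bool × ℕ)) (F := fun _ s b => sstep s b) (fst NPC.Poly.id) (pair (NPC.Poly.const []) (snd NPC.Poly.id))
    ?_ (Polynomial.C 10 * Polynomial.X + Polynomial.C 10) ?_)).congr fun p => ?_
  · refine ite (decide_bool (snd (snd NPC.Poly.id)))
      (pair (append (fst (fst (snd NPC.Poly.id))) (NPC.Poly.const [true])) (snd (fst (snd NPC.Poly.id))))
      (pair (append (fst (fst (snd NPC.Poly.id))) (cons (decide_eq (mod (snd (fst (snd NPC.Poly.id)))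
        (NPC.Poly.const 2)) (NPC.Poly.const 1)) (NPC.Poly.const [])))
        (div (snd (fst (snd NPC.Poly.id))) (NPC.Poly.const 2)))
  · intro p k hk
    have h := sstep_bound (p.1.take k) ([], p.2)
    have h1 := length_lt_sz p.1
    have h2 := sz_listBool_le ((p.1.take k).foldl sstep ([], p.2)).1
    have h3 := sz_nat_mono_le h.2
    have h4 : sz ((p.1.take k).foldl sstep ([], p.2)) =
      sz ((p.1.take k).foldl sstep ([], p.2)).1 + sz ((p.1.take k).foldl sstep ([], p.2)).2 + 1 := by
      generalize (p.1.take k).foldl sstep ([], p.2) = x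
      obtain ⟨a, b⟩ := x
      simp only [sz_pair]
    rw [h.1] at h2
    simp only [List.length_nil, List.length_take, zero_add] at h2
    have h5 : sz p = sz p.1 + sz p.2 + 1 := by
      obtain ⟨a, b⟩ := p
      simp only [sz_pair]
    simp only [Polynomial.eval_add, Polynomial.eval_mul, Polynomial.eval_C, Polynomial.eval_X]
    have h6 : ((p.1.take k).foldl (fun s b => sstep s b) ([], p.2)) =
      ((p.1.take k).foldl sstep ([], p.2)) := rfl
    have h7 : sz ((p.1.take k).foldl sstep ([], p.2)).2 ≤ 2 * sz p.2 := h3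
    have h8 : min k p.1.length ≤ p.1.length := min_le_right _ _
    rw [h6, h4]
    omega
  · exact (foldl_sstep p.1 ([], p.2)).trans (by simp)

theorem rounds_p : Poly rounds := by
  refine pow2 ?_
  refine (UPoly.length (filter (l := maskOf) (p := fun _ b => !b) maskOf_p
    (NPC.Poly.not (snd NPC.Poly.id)))).congr fun I => ?_
  change List.replicate ((maskOf I).filter fun b => !b).length () =
    List.replicate ((maskOf I).count false) ()
  rw [List.count_eq_length_filter]
  congr 2
  refine List.filter_congr fun b _ => ?_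
  cases b <;> rfl

theorem rnd_p : Poly rnd := by
  have h1 : Poly (fun s : Bool × (Inst × ℕ × ℕ) => s.2.1) := fst (snd NPC.Poly.id)
  have h2 : Poly (fun s : Bool × (Inst × ℕ × ℕ) => s.2.2.1) := fst (snd (snd NPC.Poly.id))
  have h3 : Poly (fun s : Bool × (Inst × ℕ × ℕ) => s.2.2.2) := snd (snd (snd NPC.Poly.id))
  have h4 : Poly (fun s : Bool × (Inst × ℕ × ℕ) => maskOf s.2.1) := maskOf_p.comp h1
  have h5 : Poly (fun s : Bool × (Inst × ℕ × ℕ) => setOf (maskOf s.2.1) s.2.2.1) :=
    setOf_p.comp (f := fun s : Bool × (Inst × ℕ × ℕ) => (maskOf s.2.1, s.2.2.1)) (pair h4 h2)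
  have h6 : Poly (fun s : Bool × (Inst × ℕ × ℕ) =>
      nxt s.2.1 (setOf (maskOf s.2.1) s.2.2.1) s.2.2.2) :=
    nxt_p.comp (f := fun s : Bool × (Inst × ℕ × ℕ) =>
      ((s.2.1, setOf (maskOf s.2.1) s.2.2.1), s.2.2.2)) (pair (pair h1 h5) h3)
  have h7 : Poly (fun s : Bool × (Inst × ℕ × ℕ) => rounds s.2.1) := rounds_p.comp h1
  exact pair (decide_lt (succ h2) h7) (pair h1 (pair (succ h2) h6))

end

end Pool.Agent.H118R4.DCS
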