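import Pool.Agent.H118R4.DCS.Alg

/-!
# Branching walks and connected sets
-/

set_option autoImplicit false

namespace Pool.Agent.H118R4.DCS

open MvPolynomial

variable {V : Type} [Fintype V] [DecidableEq V] (G : SimpleGraph V) [DecidableRel G.Adj]

/-- the weights: the variables of the allowed vertices -/
noncomputable def xv (A : Finset V) (u : V) : MvPolynomial V ℕ := if u ∈ A then X u else 0

/-- the adjacency test -/
def adjB (u v : V) : Bool := decide (G.Adj u v)

omit [Fintype V] in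
theorem P_xv {A : Finset V} {u : V} {D : Finset V} : P (xv A u) D ↔ u ∈ A ∧ D = {u} := by
  unfold xv
  split_ifs with h
  · simp [P_X, h]
  · simp [P_zero, h]

theorem P_bw_succ {A : Finset V} {t : ℕ} {v : V} {D : Finset V} :
    P (bw (adjB G) (xv A) (t + 1) v) D ↔ (v ∈ A ∧ D = {v}) ∨
      ∃ D1 D2 : Finset V, Disjoint D1 D2 ∧ D1 ∪ D2 = D ∧ P (bw (adjB G) (xv A) t v) D1 ∧
        ∃ u, G.Adj v u ∧ P (bw (adjB G) (xv A) t u) D2 := by
  rw [bw, P_add, P_xv, P_mul]
  refine or_congr Iff.rfl ?_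
  refine exists_congr fun D1 => exists_congr fun D2 => and_congr_right fun _ =>
    and_congr_right fun _ => and_congr_right fun _ => ?_
  rw [P_sum]
  refine exists_congr fun u => ?_
  by_cases h : G.Adj v u
  · simp [adjB, h]
  · simp [adjB, h, P_zero]

/-- connected sets of vertices -/
def CC (D : Finset V) : Prop := (G.induce (D : Set V)).Connected

omit [Fintype V] [DecidableEq V] [DecidableRel G.Adj] in
theorem cc_singleton [DecidableEq V] (v : V) : CC G {v} := by
  unfold CC
  rw [Finset.coe_singleton]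
  haveI : Subsingleton ({v} : Set V) := ⟨fun a b => Subtype.ext (a.2.trans b.2.symm)⟩
  haveI : Nonempty ({v} : Set V) := ⟨⟨v, rfl⟩⟩
  exact ⟨fun a b => by rw [Subsingleton.elim a b]⟩

theorem P_bw_sound {A : Finset V} : ∀ (t : ℕ) {v : V} {D : Finset V},
    P (bw (adjB G) (xv A) t v) D → v ∈ D ∧ D ⊆ A ∧ CC G D
  | 0, v, D, h => absurd h (by simp [bw, P_zero])
  | t + 1, v, D, h => by
    rcases (P_bw_succ G).1 h with ⟨hv, rfl⟩ | ⟨D1, D2, hd, rfl, h1, u, hu, h2⟩
    · exact ⟨by simp, by simpa using hv, cc_singleton G v⟩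
    · obtain ⟨a1, a2, a3⟩ := P_bw_sound t h1
      obtain ⟨b1, b2, b3⟩ := P_bw_sound t h2
      refine ⟨by simp [a1], Finset.union_subset a2 b2, ?_⟩
      unfold CC at *
      rw [Finset.coe_union]
      exact SimpleGraph.connected_induce_union a3.preconnected b3.preconnected
        (by exact_mod_cast a1) (by exact_mod_cast b1) hu

theorem P_bw_mono {A : Finset V} {t : ℕ} {v : V} {D : Finset V}
    (h : P (bw (adjB G) (xv A) t v) D) : P (bw (adjB G) (xv A) (t + 1) v) D := by
  induction t generalizing v D with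
  | zero => exact absurd h (by simp [bw, P_zero])
  | succ t ih =>
    rcases (P_bw_succ G).1 h with h | ⟨D1, D2, hd, hD, h1, u, hu, h2⟩
    · exact (P_bw_succ G).2 (Or.inl h)
    · exact (P_bw_succ G).2 (Or.inr ⟨D1, D2, hd, hD, ih h1, u, hu, ih h2⟩)

theorem P_bw_le {A : Finset V} {s t : ℕ} (hst : s ≤ t) {v : V} {D : Finset V}
    (h : P (bw (adjB G) (xv A) s v) D) : P (bw (adjB G) (xv A) t v) D := by
  induction t, hst using Nat.le_induction with
  | base => exact h
  | succ t _ ih => exact P_bw_mono G ih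

/-- grafting a leaf -/
theorem P_bw_graft {A : Finset V} : ∀ (t : ℕ) {v : V} {D : Finset V} {u w : V},
    P (bw (adjB G) (xv A) t v) D → u ∈ D → w ∉ D → w ∈ A → G.Adj u w →
      P (bw (adjB G) (xv A) (t + 1) v) (insert w D)
  | 0, v, D, u, w, h, _, _, _, _ => absurd h (by simp [bw, P_zero])
  | t + 1, v, D, u, w, h, hu, hw, hwA, huw => by
    have hleaf : P (bw (adjB G) (xv A) (t + 1) w) {w} := (P_bw_succ G).2 (Or.inl ⟨hwA, rfl⟩)
    rcases (P_bw_succ G).1 h with ⟨hv, rfl⟩ | ⟨D1, D2, hd, rfl, h1, x, hx, h2⟩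
    · rw [Finset.mem_singleton] at hu
      subst hu
      refine (P_bw_succ G).2 (Or.inr ⟨{u}, {w}, ?_, ?_, h, w, huw, hleaf⟩)
      · rw [Finset.disjoint_singleton_left]
        intro h'
        exact hw (by rw [Finset.mem_singleton] at h' ⊢; exact h'.symm)
      · ext z; simp [or_comm]
    · rw [Finset.mem_union, not_or] at hw
      rcases Finset.mem_union.1 hu with hu | hu
      · have := P_bw_graft t h1 hu hw.1 hwA huw
        refine (P_bw_succ G).2 (Or.inr ⟨insert w D1, D2, ?_, ?_, this, x, hx, P_bw_mono G h2⟩)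
        · rw [Finset.disjoint_insert_left]; exact ⟨hw.2, hd⟩
        · rw [Finset.insert_union]
      · have := P_bw_graft t h2 hu hw.2 hwA huw
        refine (P_bw_succ G).2 (Or.inr ⟨D1, insert w D2, ?_, ?_, P_bw_mono G h1, x, hx, this⟩)
        · rw [Finset.disjoint_insert_right]; exact ⟨hw.1, hd⟩
        · rw [Finset.union_insert]

omit [Fintype V] [DecidableRel G.Adj] in
/-- a connected set has an edge leaving every proper nonempty part -/
theorem exists_edge {D E : Finset V} (hD : CC G D) (hED : E ⊆ D) (hne : E ≠ D) {v : V}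
    (hv : v ∈ E) : ∃ u ∈ E, ∃ w ∈ D, w ∉ E ∧ G.Adj u w := by
  obtain ⟨w, hw, hwE⟩ : ∃ w ∈ D, w ∉ E := by
    by_contra h
    push Not at h
    exact hne (Finset.Subset.antisymm hED h)
  obtain ⟨p⟩ := hD.preconnected ⟨v, hED hv⟩ ⟨w, hw⟩
  obtain ⟨d, -, h1, h2⟩ := p.exists_boundary_dart {z | z.1 ∈ E} hv hwE
  exact ⟨d.fst.1, h1, d.snd.1, d.snd.2, h2, d.adj⟩

theorem P_bw_complete {A D : Finset V} (hD : CC G D) (hDA : D ⊆ A) {v : V} (hv : v ∈ D) :
    P (bw (adjB G) (xv A) D.card v) D := by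
  have key : ∀ s : ℕ, 1 ≤ s → s ≤ D.card → ∃ E ⊆ D, v ∈ E ∧ E.card = s ∧
      P (bw (adjB G) (xv A) s v) E := by
    intro s hs
    induction s, hs using Nat.le_induction with
    | base =>
      intro _
      exact ⟨{v}, by simpa using hv, by simp, by simp, (P_bw_succ G).2 (Or.inl ⟨hDA hv, rfl⟩)⟩
    | succ s hs ih =>
      intro h
      obtain ⟨E, hE1, hE2, hE3, hE4⟩ := ih (by omega)
      have hne : E ≠ D := by rintro rfl; omega
      obtain ⟨u, hu, w, hw, hwE, huw⟩ := exists_edge G hD hE1 hne hE2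
      exact ⟨insert w E, Finset.insert_subset hw hE1, Finset.mem_insert_of_mem hE2,
        by rw [Finset.card_insert_of_notMem hwE, hE3], P_bw_graft G s hE4 hu hwE (hDA hw) huw⟩
  obtain ⟨E, hE1, -, hE3, hE4⟩ := key D.card (Finset.card_pos.2 ⟨v, hv⟩) le_rfl
  rwa [Finset.eq_of_subset_of_card_le hE1 hE3.ge] at hE4

end Pool.Agent.H118R4.DCS
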