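import Pool.Agent.H118R4.DCS.Algo

/-!
# Correctness of the algorithm
-/

set_option autoImplicit false

namespace Pool.Agent.H118R4.DCS

open Pool.Agent.NPC

theorem getD_mr {α : Type} (g : ℕ → α) {n v : ℕ} (h : v < n) (d : α) :
    ((List.range n).map g).getD v d = g v := by
  rw [List.getD_eq_getElem?_getD]
  simp [h]

theorem getD_mf {α : Type} {n : ℕ} (g : Fin n → α) (v : Fin n) (d : α) :
    ((List.finRange n).map g).getD v d = g v := by
  rw [List.getD_eq_getElem?_getD]
  simp

theorem getD_ofFn {α : Type} {n : ℕ} (g : Fin n → α) (v : Fin n) (d : α) :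
    (List.ofFn g).getD v d = g v := by
  rw [List.getD_eq_getElem?_getD]
  simp

theorem lsum (h : ℕ → ℕ) : ∀ n, ((List.range n).map h).sum = ∑ u ∈ Finset.range n, h u
  | 0 => rfl
  | n + 1 => by
    rw [List.range_succ, List.map_append, List.sum_append, lsum h n, Finset.sum_range_succ]
    simp

theorem lprod (h : ℕ → ℕ) : ∀ n, ((List.range n).map h).prod = ∏ u ∈ Finset.range n, h u
  | 0 => rfl
  | n + 1 => by
    rw [List.range_succ, List.map_append, List.prod_append, lprod h n, Finset.prod_range_succ]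
    simp

section

variable {n : ℕ} (G : SimpleGraph (Fin n)) [DecidableRel G.Adj] {k : ℕ}
  (Z : Fin k → Finset (Fin n))

/-- the code of an instance -/
def inst : Inst :=
  ((List.finRange n).map fun u => (List.finRange n).map fun v => decide (G.Adj u v),
    List.ofFn fun i => ((Z i).sort (· ≤ ·)).map Fin.val)

theorem nn_inst : nn (inst G Z) = n := by simp [nn, inst]
theorem kk_inst : kk (inst G Z) = k := by simp [kk, inst]

variable {Z}

theorem exists_root (hZ : ∀ i, (Z i).Nonempty) : ∃ r : Fin k → Fin n, (∀ i, r i ∈ Z i) ∧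
    ∀ i : Fin k, rt (inst G Z) i = (r i : ℕ) := by
  have h : ∀ i : Fin k, ∃ r : Fin n, r ∈ Z i ∧ rt (inst G Z) i = (r : ℕ) := fun i => by
    have h1 : (inst G Z).2.getD i [] = ((Z i).sort (· ≤ ·)).map Fin.val := getD_ofFn _ i _
    unfold rt
    rw [h1]
    cases h2 : (Z i).sort (· ≤ ·) with
    | nil =>
      obtain ⟨z, hz⟩ := hZ i
      rw [← Finset.mem_sort (· ≤ ·), h2] at hz
      simp at hz
    | cons a l =>
      refine ⟨a, ?_, by simp⟩
      rw [← Finset.mem_sort (· ≤ ·), h2]
      simp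
  choose r hr using h
  exact ⟨r, fun i => (hr i).1, fun i => (hr i).2⟩

theorem okv_inst (i : ℕ) (v : Fin n) : okv (inst G Z) i v = true ↔
    ∀ j : Fin k, (j : ℕ) ≠ i → v ∉ Z j := by
  unfold okv
  rw [kk_inst, List.all_eq_true]
  have h1 : ∀ j : Fin k, ((v : ℕ) ∈ (inst G Z).2.getD j []) ↔ v ∈ Z j := fun j => by
    have h2 : (inst G Z).2.getD j [] = ((Z j).sort (· ≤ ·)).map Fin.val := getD_ofFn _ j _
    rw [h2, List.mem_map]
    constructor
    · rintro ⟨a, ha, hav⟩
      rw [Finset.mem_sort] at ha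
      rwa [Fin.ext hav] at ha
    · intro h
      exact ⟨v, by rwa [Finset.mem_sort], rfl⟩
  constructor
  · intro h j hj
    have := h j (by simp)
    simp only [Bool.or_eq_true, decide_eq_true_eq, Bool.not_eq_true', decide_eq_false_iff_not,
      h1 j] at this
    rcases this with h | h
    · exact absurd h hj
    · exact h
  · intro h j hj
    rw [List.mem_range] at hj
    simp only [Bool.or_eq_true, decide_eq_true_eq, Bool.not_eq_true', decide_eq_false_iff_not]
    by_cases hji : j = i
    · exact Or.inl hji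
    · right
      have := h ⟨j, hj⟩ hji
      rwa [← h1 ⟨j, hj⟩] at this

theorem okv_allow (i : Fin k) (v : Fin n) : okv (inst G Z) i v = true ↔ v ∈ allow Z i := by
  rw [okv_inst, allow, Finset.mem_filter]
  constructor
  · intro h
    exact ⟨by simp, fun j hj => h j (fun h' => hj (Fin.ext h'))⟩
  · rintro ⟨-, h⟩ j hj
    exact h j (fun h' => hj (by rw [h']))

theorem okv_free (v : Fin n) : okv (inst G Z) k v = true ↔ v ∈ free Z := by
  rw [okv_inst, free, Finset.mem_filter]
  constructor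
  · intro h
    exact ⟨by simp, fun j => h j j.2.ne⟩
  · rintro ⟨-, h⟩ j _
    exact h j

theorem adj_inst (u v : Fin n) : ((inst G Z).1.getD u []).getD v false = adjB G u v := by
  have h1 : (inst G Z).1.getD u [] = (List.finRange n).map fun v => decide (G.Adj u v) :=
    getD_mf _ u _
  rw [h1, getD_mf]
  rfl

theorem iter_mod (xs : List ℕ) : ∀ (t : ℕ) (v : Fin n),
    ((((stepv (inst G Z) xs)^[t] []).getD v 0 : ℕ) : ZMod (MM (inst G Z))) =
      ((bw (adjB G) (fun u : Fin n => xs.getD u 0) t v : ℕ) : ZMod (MM (inst G Z)))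
  | 0, v => by simp [bw]
  | t + 1, v => by
    have ih := iter_mod xs t
    rw [Function.iterate_succ_apply', stepv, getD_mr _ (by rw [nn_inst]; exact v.2), lsum,
      ZMod.natCast_mod, bw]
    generalize (stepv (inst G Z) xs)^[t] [] = f at ih
    rw [nn_inst, Finset.sum_range, Nat.cast_add, Nat.cast_add, Nat.cast_mul, Nat.cast_mul, ih v,
      Nat.cast_sum, Nat.cast_sum]
    congr 2
    refine Finset.sum_congr rfl fun u _ => ?_
    rw [adj_inst]
    split_ifs
    · exact ih u
    · rfl

theorem foldl_mod (M : ℕ) : ∀ (l : List ℕ) (s : ℕ),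
    ((l.foldl (fun a b => a * b % M) s : ℕ) : ZMod M) = (s : ZMod M) * ((l.prod : ℕ) : ZMod M)
  | [], s => by simp
  | b :: l, s => by
    rw [List.foldl_cons, foldl_mod M l, ZMod.natCast_mod, List.prod_cons, Nat.cast_mul,
      Nat.cast_mul, mul_assoc]

theorem valX_cast {r : Fin k → Fin n} (hr : ∀ i : Fin k, rt (inst G Z) i = (r i : ℕ))
    (X : List Bool) :
    ((valX (inst G Z) X : ℕ) : ZMod (MM (inst G Z))) =
      ((MvPolynomial.eval (fun v : Fin n => if X.getD v false then yy (inst G Z) else 0)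
        (Q G Z r) : ℕ) : ZMod (MM (inst G Z))) := by
  unfold valX
  rw [ZMod.natCast_mod, foldl_mod, Nat.cast_one, one_mul, facs, List.prod_append, lprod, lprod,
    nn_inst, kk_inst, Finset.prod_range, Finset.prod_range, eval_Q, Nat.cast_mul, Nat.cast_mul]
  congr 1
  · rw [Nat.cast_prod, Nat.cast_prod]
    refine Finset.prod_congr rfl fun i _ => ?_
    rw [hr i, walk, nn_inst, iter_mod, Fintype.card_fin]
    congr 2
    funext u
    rw [wl, getD_mr _ (by rw [nn_inst]; exact u.2)]
    have := okv_allow G (Z := Z) i u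
    by_cases h1 : u ∈ allow Z i
    · rw [this.2 h1, if_pos h1]
      simp
    · rw [if_neg h1, if_neg]
      rintro ⟨-, h⟩
      exact h1 (this.1 h)
  · congr 1
    rw [← Finset.prod_filter_mul_prod_filter_not Finset.univ (· ∈ free Z)]
    rw [Finset.prod_congr (g := fun _ => 1) rfl (s₁ := Finset.univ.filter (· ∉ free Z))]
    · rw [Finset.prod_const_one, mul_one]
      refine Finset.prod_congr (by ext; simp) fun v hv => ?_
      rw [(okv_free G (Z := Z) v).2 hv]
      by_cases h : X.getD v false = true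
      · rw [if_pos ⟨h, rfl⟩, MvPolynomial.eval_X, if_pos h]
      · rw [if_neg (fun h' => h h'.1), MvPolynomial.eval_X, if_neg h]
    · intro v hv
      rw [Finset.mem_filter] at hv
      rw [if_neg]
      rintro ⟨-, h⟩
      exact hv.2 ((okv_free G (Z := Z) v).1 h)

theorem valX_le (I : Inst) (X : List Bool) : valX I X ≤ MM I :=
  (Nat.mod_lt _ (MM_pos I)).le

theorem nxt_cast {r : Fin k → Fin n} (hr : ∀ i : Fin k, rt (inst G Z) i = (r i : ℕ))
    (X : List Bool) (acc : ℕ) :
    ((nxt (inst G Z) X acc : ℕ) : ZMod (MM (inst G Z))) = (acc : ZMod (MM (inst G Z))) +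
      (((-1) ^ (∑ v : Fin n, if X.getD v false then 0 else 1 : ℕ) : ℤ) :
        ZMod (MM (inst G Z))) *
      ((MvPolynomial.eval (fun v : Fin n => if X.getD v false then yy (inst G Z) else 0)
        (Q G Z r) : ℕ) : ZMod (MM (inst G Z))) := by
  have h1 : par (inst G Z) X = ∑ v : Fin n, if X.getD v false then 0 else 1 := by
    unfold par
    rw [lsum, nn_inst, Finset.sum_range]
  rw [← valX_cast G hr, ← h1]
  unfold nxt
  split_ifs with h
  · have h2 : Even (par (inst G Z) X) := Nat.even_iff.2 h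
    rw [h2.neg_one_pow, ZMod.natCast_mod]
    push_cast
    ring
  · have h2 : Odd (par (inst G Z) X) := Nat.odd_iff.2 (by omega)
    rw [h2.neg_one_pow, ZMod.natCast_mod, Nat.cast_add, Nat.cast_sub (valX_le _ _),
      ZMod.natCast_self]
    push_cast
    ring

/-- the accumulators -/
def accs (I : Inst) : ℕ → ℕ
  | 0 => 0
  | j + 1 => nxt I (setOf (maskOf I) j) (accs I j)

theorem accs_cast {r : Fin k → Fin n} (hr : ∀ i : Fin k, rt (inst G Z) i = (r i : ℕ)) (j : ℕ) :
    ((accs (inst G Z) j : ℕ) : ZMod (MM (inst G Z))) =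
      ((∑ i ∈ Finset.range j, sgn (n := n) (maskOf (inst G Z)) i *
        ((MvPolynomial.eval (wts (maskOf (inst G Z)) (yy (inst G Z)) i) (Q G Z r) : ℕ) : ℤ) : ℤ) :
          ZMod (MM (inst G Z))) := by
  induction j with
  | zero => simp [accs]
  | succ j ih =>
    rw [accs, nxt_cast G hr, ih, Finset.sum_range_succ, Int.cast_add, Int.cast_mul,
      Int.cast_natCast]
    rfl

theorem accs_lt (I : Inst) (j : ℕ) : accs I j < MM I := by
  cases j with
  | zero => exact MM_pos I
  | succ j =>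
    rw [accs, nxt]
    split_ifs <;> exact Nat.mod_lt _ (MM_pos I)

theorem mask_getD {r : Fin k → Fin n} (hr : ∀ i : Fin k, rt (inst G Z) i = (r i : ℕ))
    (v : Fin n) : (maskOf (inst G Z)).getD v false = true ↔ ∃ i, v = r i := by
  rw [maskOf, getD_mr _ (by rw [nn_inst]; exact v.2), List.any_eq_true, kk_inst]
  constructor
  · rintro ⟨i, hi, h⟩
    rw [List.mem_range] at hi
    rw [decide_eq_true_eq] at h
    refine ⟨⟨i, hi⟩, Fin.ext ?_⟩
    rw [← hr ⟨i, hi⟩, ← h]
  · rintro ⟨i, rfl⟩
    exact ⟨i, by simp, by rw [decide_eq_true_eq, hr i]⟩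

theorem accs_iff (hn : 0 < n) (hZ : ∀ i, (Z i).Nonempty) :
    accs (inst G Z) (rounds (inst G Z)) ≠ 0 ↔
      ∃ E : Fin k → Finset (Fin n), (∀ i j, i ≠ j → Disjoint (E i) (E j)) ∧
        (∀ i, CC G (E i)) ∧ ∀ i, Z i ⊆ E i := by
  obtain ⟨r, hr1, hr⟩ := exists_root G hZ
  rw [← P_Q G hr1]
  have h1 := accs_cast G hr (rounds (inst G Z))
  have h2 := total_iff G Z r (mask := maskOf (inst G Z)) (by simp [maskOf, nn_inst]) hn
    (fun v hv => (mask_getD G hr v).1 hv)
  have h3 : (2 ^ ((n + 3) * n + 1)) ^ (n + 1) = MM (inst G Z) := by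
    rw [← pow_mul, MM, ex, nn_inst]
  have h4 : 2 ^ ((n + 3) * n + 1) = yy (inst G Z) := by
    rw [yy, ex, nn_inst]
  rw [h3, h4] at h2
  have h5 : accs (inst G Z) (rounds (inst G Z)) = 0 ↔
      ((MM (inst G Z) : ℕ) : ℤ) ∣ total G Z r (maskOf (inst G Z)) (yy (inst G Z)) := by
    rw [← ZMod.intCast_zmod_eq_zero_iff_dvd]
    have h6 : ((total G Z r (maskOf (inst G Z)) (yy (inst G Z)) : ℤ) : ZMod (MM (inst G Z))) =
        ((accs (inst G Z) (rounds (inst G Z)) : ℕ) : ZMod (MM (inst G Z))) := h1.symm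
    rw [h6, ZMod.natCast_eq_zero_iff]
    constructor
    · intro h
      rw [h]
      exact dvd_zero _
    · intro h
      exact Nat.eq_zero_of_dvd_of_lt h (accs_lt _ _)
  rw [ne_eq, h5, h2, not_not]

end

end Pool.Agent.H118R4.DCS
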