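import Pool.Agent.H118R4.DCS.Algo2
import Pool.Agent.H118R4.DCS.Corr

/-!
# The machine and its running time
-/

set_option autoImplicit false

namespace Pool.Agent.H118R4.DCS

open Pool.Agent.NPC
open Turing

/-- the machine of a program -/
theorem exists_machine (c : Cmd ℕ) : ∃ M : TM2ComputableAux Bool Bool,
    ∀ (x y : List Bool) (t : ℕ), Runs c (inp x) (inp y) t →
      Nonempty (TM2OutputsInTime M.tm (x.map M.inputAlphabet.invFun)
        (some (y.map M.outputAlphabet.invFun)) (t + 1)) := by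
  refine ⟨{ tm := (c.map (Fin.ofNat (c.bd + 1))).toTM
            inputAlphabet := Equiv.refl Bool
            outputAlphabet := Equiv.refl Bool }, fun x y t h => ?_⟩
  obtain ⟨t', ht, hr⟩ := h
  have h1 := hr.restrict (n := c.bd) (by omega)
  have h2 : Nonempty (TM2OutputsInTime (c.map (Fin.ofNat (c.bd + 1))).toTM x (some y)
      (t' + 1)) := by
    refine toTM_outputs ?_
    convert! h1 using 1
    · funext i
      by_cases hi : i = 0
      · subst hi; simp [inp]
      · have : (i : ℕ) ≠ 0 := fun h => hi (Fin.ext h)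
        simp [inp, hi, this]
    · funext i
      by_cases hi : i = 0
      · subst hi; simp [inp]
      · have : (i : ℕ) ≠ 0 := fun h => hi (Fin.ext h)
        simp [inp, hi, this]
  obtain ⟨h3⟩ := h2
  exact ⟨outputs_conv (List.map_id x).symm (List.map_id y).symm (by omega) h3⟩

theorem rounds_pos (I : Inst) : 1 ≤ rounds I := Nat.one_le_two_pow

theorem rnd_iter (I : Inst) (b : Bool) : ∀ j : ℕ, rnd^[j + 1] (b, (I, 0, 0)) =
    (decide (j + 1 < rounds I), (I, j + 1, accs I (j + 1)))
  | 0 => rfl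
  | j + 1 => by
    rw [Function.iterate_succ_apply', rnd_iter I b j]
    rfl

theorem sz_state (I : Inst) (b : Bool) (j : ℕ) (hj : j < rounds I) :
    sz (rnd^[j] (b, (I, 0, 0))) ≤ sz I + 2 * sz (rounds I) + 2 * sz (MM I) + 6 := by
  obtain ⟨c, hc⟩ : ∃ c : Bool, rnd^[j] (b, (I, 0, 0)) = (c, (I, j, accs I j)) := by
    cases j with
    | zero => exact ⟨b, rfl⟩
    | succ j => exact ⟨_, rnd_iter I b j⟩
  rw [hc]
  have h1 := sz_bool_le c
  have h2 := sz_nat_mono_le hj.le
  have h3 := sz_nat_mono_le (accs_lt I j).le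
  simp only [sz_pair]
  omega

section

variable {n : ℕ} (G : SimpleGraph (Fin n)) [DecidableRel G.Adj] {k : ℕ}
  {Z : Fin k → Finset (Fin n)}

theorem count_mask (hZ : ∀ i, (Z i).Nonempty) (hd : ∀ i j, i ≠ j → Disjoint (Z i) (Z j)) :
    (maskOf (inst G Z)).count false = n - k ∧ k ≤ n := by
  obtain ⟨r, hr1, hr⟩ := exists_root G hZ
  have hinj : Function.Injective r := fun i j h => by
    by_contra hij
    exact Finset.disjoint_left.1 (hd i j hij) (hr1 i) (h ▸ hr1 j)
  have h1 := List.count_false_add_count_true (maskOf (inst G Z))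
  have h2 : (maskOf (inst G Z)).length = n := by simp [maskOf, nn_inst]
  have h3 : (maskOf (inst G Z)).count true = k := by
    have e1 : (maskOf (inst G Z)).count true = ((List.range n).filter (fun v =>
        (List.range k).any fun i => decide (rt (inst G Z) i = v))).length := by
      rw [maskOf, nn_inst, kk_inst, List.count, List.countP_map, List.countP_eq_length_filter]
      congr 1
      refine List.filter_congr fun v _ => ?_
      simp
    rw [e1, ← List.toFinset_card_of_nodup (List.Nodup.filter _ List.nodup_range)]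
    have e2 : ((List.range n).filter (fun v =>
        (List.range k).any fun i => decide (rt (inst G Z) i = v))).toFinset =
        Finset.univ.image (fun i : Fin k => (r i : ℕ)) := by
      ext v
      simp only [List.mem_toFinset, List.mem_filter, List.mem_range, List.any_eq_true,
        decide_eq_true_eq, Finset.mem_image, Finset.mem_univ, true_and]
      constructor
      · rintro ⟨-, i, hi, h⟩
        exact ⟨⟨i, hi⟩, by rw [← hr ⟨i, hi⟩, ← h]⟩
      · rintro ⟨i, rfl⟩
        exact ⟨(r i).2, i, i.2, hr i⟩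
    rw [e2, Finset.card_image_of_injective _ (fun i j h => hinj (Fin.ext h)), Finset.card_univ,
      Fintype.card_fin]
  omega

theorem sz_inst (hk : k ≤ n) : sz (inst G Z) ≤
    (n * (4 * n + 1 + 1) + 1) + (n * (n * (4 * n + 1 + 1) + 1 + 1) + 1) + 1 := by
  have h1 : sz (inst G Z) = sz (inst G Z).1 + sz (inst G Z).2 + 1 := by
    generalize inst G Z = x
    obtain ⟨a, b⟩ := x
    simp only [sz_pair]
  have h2 : sz (inst G Z).1 ≤ n * (4 * n + 1 + 1) + 1 := by
    have := sz_le_length_mul (inst G Z).1 (4 * n + 1) (by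
      intro a ha
      simp only [inst, List.mem_map] at ha
      obtain ⟨u, -, rfl⟩ := ha
      refine (sz_listBool_le _).trans ?_
      simp)
    refine this.trans ?_
    simp [inst]
  have h3 : sz (inst G Z).2 ≤ n * (n * (4 * n + 1 + 1) + 1 + 1) + 1 := by
    have := sz_le_length_mul (inst G Z).2 (n * (4 * n + 1 + 1) + 1) (by
      intro a ha
      simp only [inst, List.mem_ofFn] at ha
      obtain ⟨i, rfl⟩ := ha
      have h4 := sz_le_length_mul (((Z i).sort (· ≤ ·)).map Fin.val) (4 * n + 1) (by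
        intro a ha
        rw [List.mem_map] at ha
        obtain ⟨v, -, rfl⟩ := ha
        have h5 := sz_nat_le (v : ℕ)
        have h6 := NPC.Poly.size_le_self (v : ℕ)
        have := v.2
        omega)
      refine h4.trans (Nat.add_le_add_right (Nat.mul_le_mul_right _ ?_) 1)
      rw [List.length_map, Finset.length_sort]
      exact (Finset.card_le_univ _).trans (by simp))
    refine this.trans (Nat.add_le_add_right (Nat.mul_le_mul_right _ ?_) 1)
    simpa [inst] using hk
  omega

theorem accs_iff' (hZ : ∀ i, (Z i).Nonempty) :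
    accs (inst G Z) (rounds (inst G Z)) ≠ 0 ↔
      ∃ E : Fin k → Finset (Fin n), (∀ i j, i ≠ j → Disjoint (E i) (E j)) ∧
        (∀ i, CC G (E i)) ∧ ∀ i, Z i ⊆ E i := by
  rcases Nat.eq_zero_or_pos n with h0 | h0
  · subst h0
    have hk : k = 0 := by
      by_contra hk
      obtain ⟨v, -⟩ := hZ ⟨0, Nat.pos_of_ne_zero hk⟩
      exact v.elim0
    subst hk
    have h1 : inst G Z = ([], []) := rfl
    constructor
    · intro _
      exact ⟨fun i => i.elim0, fun i => i.elim0, fun i => i.elim0, fun i => i.elim0⟩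
    · intro _
      rw [h1]
      decide
  · exact accs_iff G h0 hZ

end

/-- the machine -/
theorem exists_algorithm : ∃ (M : TM2ComputableAux Bool Bool) (p : Polynomial ℕ),
    ∀ (n k : ℕ) (G : SimpleGraph (Fin n)) [DecidableRel G.Adj] (Z : Fin k → Finset (Fin n)),
      (∀ i, (Z i).Nonempty) → (∀ i j, i ≠ j → Disjoint (Z i) (Z j)) →
      ∀ b : Bool, (b = true ↔ ∃ E : Fin k → Finset (Fin n),
        (∀ i j, i ≠ j → Disjoint (E i) (E j)) ∧ (∀ i, CC G (E i)) ∧ ∀ i, Z i ⊆ E i) →
      Nonempty (TM2OutputsInTime M.tm ((bits (inst G Z)).map M.inputAlphabet.invFun)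
        (some ([b].map M.outputAlphabet.invFun)) (2 ^ (n - k) * p.eval n)) := by
  obtain ⟨c1, p1, h1⟩ : Poly (fun I : Inst => ((true, (I, 0, 0)) : Bool × (Inst × ℕ × ℕ))) :=
    NPC.Poly.pair (NPC.Poly.const true) (NPC.Poly.pair NPC.Poly.id
      (NPC.Poly.pair (NPC.Poly.const 0) (NPC.Poly.const 0)))
  obtain ⟨c2, p2, h2⟩ := while_runs rnd_p
  have h3' : Poly (fun s : Bool × (Inst × ℕ × ℕ) => !decide (s.2.2.2 = 0)) :=
    NPC.Poly.not (NPC.Poly.decide_eq (NPC.Poly.snd (NPC.Poly.snd (NPC.Poly.snd NPC.Poly.id)))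
      (NPC.Poly.const 0))
  obtain ⟨c3, p3, h3⟩ := PC.comp (g := fun b => [b]) PC.rawBool h3'
  obtain ⟨r1, hr1⟩ := rounds_p.sz_le
  obtain ⟨r2, hr2⟩ := MM_p.sz_le
  obtain ⟨M, hM⟩ := exists_machine (Cmd.seq c1 (Cmd.seq c2 c3))
  let S : Polynomial ℕ := (Polynomial.X * (Polynomial.C 4 * Polynomial.X + 1 + 1) + 1) +
    (Polynomial.X * (Polynomial.X * (Polynomial.C 4 * Polynomial.X + 1 + 1) + 1 + 1) + 1) + 1
  let B : Polynomial ℕ := S + 2 * r1.comp S + 2 * r2.comp S + 6
  refine ⟨M, p1.comp S + p2.comp B + p3.comp B + 3, fun n k G _ Z hZ hd b hb => ?_⟩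
  obtain ⟨hc, hk⟩ := count_mask G hZ hd
  set I := inst G Z with hI
  have hN : rounds I = 2 ^ (n - k) := by rw [rounds, hc]
  have hS : sz I ≤ S.eval n := by
    refine (sz_inst G hk).trans (le_of_eq ?_)
    simp only [S, Polynomial.eval_add, Polynomial.eval_mul, Polynomial.eval_C, Polynomial.eval_X,
      Polynomial.eval_one]
  have hS1 : r1.eval (sz I) ≤ r1.eval (S.eval n) := eval_mono r1 hS
  have hS2 : r2.eval (sz I) ≤ r2.eval (S.eval n) := eval_mono r2 hS
  have hB : B.eval n = S.eval n + 2 * r1.eval (S.eval n) + 2 * r2.eval (S.eval n) + 6 := by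
    simp only [B, Polynomial.eval_add, Polynomial.eval_mul, Polynomial.eval_comp,
      Polynomial.eval_ofNat]
  have hsz : ∀ (c : Bool) (j : ℕ), j < rounds I → sz (rnd^[j] (c, (I, 0, 0))) ≤ B.eval n :=
    fun c j hj => by
      have e1 := sz_state I c j hj
      have e2 := hr1 I
      have e3 := hr2 I
      rw [hB]
      omega
  -- the last state
  obtain ⟨N, hN'⟩ : ∃ N, rounds I = N + 1 := ⟨rounds I - 1, by have := rounds_pos I; omega⟩
  have hlast : rnd^[rounds I] (true, (I, 0, 0)) = (false, (I, rounds I, accs I (rounds I))) := by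
    rw [hN', rnd_iter, hN']
    simp
  have hszl : sz (rnd^[rounds I] (true, (I, 0, 0))) ≤ B.eval n := by
    rw [hlast]
    have e1 := sz_bool_le false
    have e2 := sz_nat_mono_le (accs_lt I (rounds I)).le
    have e3 := hr1 I
    have e4 := hr2 I
    rw [hB]
    simp only [sz_pair]
    omega
  have k1 := h1 I
  have k2 := h2 (rounds I) (true, (I, 0, 0)) (B.eval n) (rounds_pos I)
    (fun j hj => hsz true j hj)
    (fun j hj hj' => by
      obtain ⟨j', rfl⟩ : ∃ j', j = j' + 1 := ⟨j - 1, by omega⟩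
      rw [rnd_iter]
      simpa using hj')
    (by rw [hlast])
  have k3 := h3 (rnd^[rounds I] (true, (I, 0, 0)))
  have hbb : (!decide ((rnd^[rounds I] (true, (I, 0, 0))).2.2.2 = 0)) = b := by
    rw [hlast]
    have := accs_iff' G hZ
    rw [← hb] at this
    cases b
    · simp only [Bool.false_eq_true, iff_false, not_not] at this
      simp only [Bool.not_eq_false', decide_eq_true_eq]
      exact this
    · simp only [iff_true] at this
      simp only [Bool.not_eq_true', decide_eq_false_iff_not]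
      exact this
  have k4 := k1.seq (k2.seq k3)
  beta_reduce at k4
  rw [hbb] at k4
  obtain ⟨h⟩ := hM _ _ _ k4
  refine ⟨⟨h.1, h.2.trans ?_⟩⟩
  have e1 : p1.eval (bits I).length ≤ p1.eval (S.eval n) := eval_mono p1 hS
  have e3 : p3.eval (bits (rnd^[rounds I] (true, (I, 0, 0)))).length ≤ p3.eval (B.eval n) :=
    eval_mono p3 hszl
  rw [hN]
  simp only [Polynomial.eval_add, Polynomial.eval_comp, Polynomial.eval_ofNat]
  have e4 : 1 ≤ 2 ^ (n - k) := Nat.one_le_two_pow
  have e5 : p1.eval (bits I).length ≤ 2 ^ (n - k) * p1.eval (S.eval n) :=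
    e1.trans (Nat.le_mul_of_pos_left _ e4)
  have e6 : p3.eval (bits (rnd^[rounds I] (true, (I, 0, 0)))).length ≤
      2 ^ (n - k) * p3.eval (B.eval n) := e3.trans (Nat.le_mul_of_pos_left _ e4)
  rw [hN] at e6
  rw [mul_add, mul_add, mul_add]
  omega

end Pool.Agent.H118R4.DCS
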