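import Pool.Agent.H118R4.DCS.Conn

/-!
# The polynomial of a system of disjoint connected sets
-/

set_option autoImplicit false

namespace Pool.Agent.H118R4.DCS

open MvPolynomial

variable {V : Type} [Fintype V] [DecidableEq V] (G : SimpleGraph V) [DecidableRel G.Adj]

/-- the vertices a tree with index `i` may use -/
def allow {k : ℕ} (Z : Fin k → Finset V) (i : Fin k) : Finset V :=
  Finset.univ.filter fun v => ∀ j, j ≠ i → v ∉ Z j

/-- the vertices in no terminal set -/
def free {k : ℕ} (Z : Fin k → Finset V) : Finset V :=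
  Finset.univ.filter fun v => ∀ j, v ∉ Z j

theorem P_free (S : Finset V) {D : Finset V} :
    P (∏ v ∈ S, (1 + X v : MvPolynomial V ℕ)) D ↔ D ⊆ S := by
  rw [P_prod]
  constructor
  · rintro ⟨E, -, rfl, h⟩
    refine Finset.biUnion_subset.2 fun v hv => ?_
    have := h v hv
    rw [P_add, P_one, P_X] at this
    rcases this with h | h
    · rw [h]; exact Finset.empty_subset _
    · rw [h]; simpa using hv
  · intro h
    refine ⟨fun v => if v ∈ D then {v} else ∅, ?_, ?_, ?_⟩
    · intro i _ j _ hij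
      by_cases h1 : i ∈ D <;> by_cases h2 : j ∈ D <;> simp [h1, h2, hij]
    · ext v
      simp only [Finset.mem_biUnion]
      constructor
      · rintro ⟨u, hu, h1⟩
        split_ifs at h1 with h2
        · rw [Finset.mem_singleton] at h1
          rwa [h1]
        · simp at h1
      · intro hv
        exact ⟨v, h hv, by rw [if_pos hv]; simp⟩
    · intro v _
      rw [P_add, P_one, P_X]
      by_cases h1 : v ∈ D <;> simp [h1]

/-- the polynomial -/
noncomputable def Q {k : ℕ} (Z : Fin k → Finset V) (r : Fin k → V) : MvPolynomial V ℕ :=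
  (∏ i, bw (adjB G) (xv (allow Z i)) (Fintype.card V) (r i)) * ∏ v ∈ free Z, (1 + X v)

theorem P_Q {k : ℕ} {Z : Fin k → Finset V} {r : Fin k → V} (hr : ∀ i, r i ∈ Z i) :
    P (Q G Z r) Finset.univ ↔ ∃ E : Fin k → Finset V, (∀ i j, i ≠ j → Disjoint (E i) (E j)) ∧
      (∀ i, CC G (E i)) ∧ ∀ i, Z i ⊆ E i := by
  unfold Q
  rw [P_mul]
  constructor
  · rintro ⟨D1, D2, hd, hu, h1, h2⟩
    rw [P_prod] at h1
    rw [P_free] at h2
    obtain ⟨E, hE1, rfl, hE3⟩ := h1
    refine ⟨E, fun i j hij => hE1 i (by simp) j (by simp) hij,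
      fun i => (P_bw_sound G _ (hE3 i (by simp))).2.2, fun i v hv => ?_⟩
    have hv2 : v ∉ D2 := fun h => by
      have := h2 h
      rw [free, Finset.mem_filter] at this
      exact this.2 i hv
    have hv1 : v ∈ Finset.univ.biUnion E ∪ D2 := by rw [hu]; simp
    rcases Finset.mem_union.1 hv1 with h | h
    · obtain ⟨j, -, hj⟩ := Finset.mem_biUnion.1 h
      by_cases hij : i = j
      · rwa [hij]
      · have := (P_bw_sound G _ (hE3 j (by simp))).2.1 hj
        rw [allow, Finset.mem_filter] at this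
        exact absurd hv (this.2 i hij)
    · exact absurd h hv2
  · rintro ⟨E, hE1, hE2, hE3⟩
    refine ⟨Finset.univ.biUnion E, Finset.univ \ Finset.univ.biUnion E, Finset.disjoint_sdiff,
      by simp, ?_, ?_⟩
    · rw [P_prod]
      refine ⟨E, fun i _ j _ hij => hE1 i j hij, rfl, fun i _ => ?_⟩
      refine P_bw_le G (Finset.card_le_univ (E i)) (P_bw_complete G (hE2 i) ?_ (hE3 i (hr i)))
      intro v hv
      rw [allow, Finset.mem_filter]
      refine ⟨by simp, fun j hj hvj => ?_⟩
      exact Finset.disjoint_left.1 (hE1 i j hj.symm) hv (hE3 j hvj)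
    · rw [P_free]
      intro v hv
      rw [free, Finset.mem_filter]
      refine ⟨by simp, fun j hj => ?_⟩
      rw [Finset.mem_sdiff] at hv
      exact hv.2 (Finset.mem_biUnion.2 ⟨j, by simp, hE3 j hj⟩)

theorem X_dvd_bw (adj : V → V → Bool) (A : Finset V) : ∀ (t : ℕ) (v : V),
    (X v : MvPolynomial V ℕ) ∣ bw adj (xv A) t v
  | 0, v => by simp [bw]
  | t + 1, v => by
    rw [bw]
    refine dvd_add ?_ (Dvd.dvd.mul_right (X_dvd_bw adj A t v) _)
    unfold xv
    split_ifs
    · exact dvd_rfl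
    · exact dvd_zero _

theorem root_pos {k : ℕ} {Z : Fin k → Finset V} {r : Fin k → V} {e : V →₀ ℕ}
    (he : coeff e (Q G Z r) ≠ 0) (i : Fin k) : e (r i) ≠ 0 := by
  have h : (X (r i) : MvPolynomial V ℕ) ∣ Q G Z r := by
    have h1 : (X (r i) : MvPolynomial V ℕ) ∣
        bw (adjB G) (xv (allow Z i)) (Fintype.card V) (r i) := X_dvd_bw _ _ _ _
    have h2 := Finset.dvd_prod_of_mem
      (fun i => bw (adjB G) (xv (allow Z i)) (Fintype.card V) (r i)) (Finset.mem_univ i)
    exact Dvd.dvd.mul_right (h1.trans h2) _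
  obtain ⟨g, hg⟩ := h
  intro h0
  apply he
  rw [hg, coeff_X_mul', if_neg]
  simpa using h0

/-- the values of the polynomial -/
theorem eval_Q {R : Type} [CommSemiring R] (φ : MvPolynomial V ℕ →+* R) {k : ℕ}
    (Z : Fin k → Finset V) (r : Fin k → V) :
    φ (Q G Z r) = (∏ i, bw (adjB G) (fun u => if u ∈ allow Z i then φ (X u) else 0)
      (Fintype.card V) (r i)) * ∏ v ∈ free Z, (1 + φ (X v)) := by
  unfold Q
  rw [map_mul, map_prod, map_prod]
  congr 1
  · refine Finset.prod_congr rfl fun i _ => ?_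
    rw [map_bw]
    congr 1
    funext u
    unfold xv
    split_ifs <;> simp
  · refine Finset.prod_congr rfl fun i _ => ?_
    rw [map_add, map_one]

/-- all values of branching walks at a small weight are small -/
theorem bw_small (adj : V → V → Bool) (n : ℕ) (hn : 0 < n) (hV : Fintype.card V = n) (x : V → ℚ)
    (hx0 : ∀ v, 0 ≤ x v) (hx : ∀ v, x v ≤ 1 / (4 * n)) : ∀ (t : ℕ) (v : V),
      0 ≤ bw adj x t v ∧ bw adj x t v ≤ 1 / (2 * n)
  | 0, v => by
    simp only [bw, le_refl, true_and]
    positivity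
  | t + 1, v => by
    have ih := bw_small adj n hn hV x hx0 hx t
    have hn' : (0 : ℚ) < n := by exact_mod_cast hn
    have h1 : ∀ u, 0 ≤ (if adj v u then bw adj x t u else 0) ∧
        (if adj v u then bw adj x t u else 0) ≤ 1 / (2 * (n : ℚ)) := fun u => by
      split_ifs
      · exact ih u
      · exact ⟨le_rfl, by positivity⟩
    have h2 : 0 ≤ ∑ u, (if adj v u then bw adj x t u else 0) :=
      Finset.sum_nonneg fun u _ => (h1 u).1
    have h3 : ∑ u, (if adj v u then bw adj x t u else 0) ≤ 1 / 2 := by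
      calc ∑ u, (if adj v u then bw adj x t u else 0) ≤ ∑ _u : V, 1 / (2 * (n : ℚ)) :=
            Finset.sum_le_sum fun u _ => (h1 u).2
        _ = 1 / 2 := by
            rw [Finset.sum_const, Finset.card_univ, hV, nsmul_eq_mul]
            field_simp
    rw [bw]
    constructor
    · exact add_nonneg (hx0 v) (mul_nonneg (ih v).1 h2)
    · have h4 : bw adj x t v * ∑ u, (if adj v u then bw adj x t u else 0) ≤
          1 / (2 * n) * (1 / 2) := mul_le_mul (ih v).2 h3 h2 (by positivity)
      have h5 : (1 : ℚ) / (4 * n) + 1 / (2 * n) * (1 / 2) = 1 / (2 * n) := by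
        field_simp
        norm_num
      linarith [hx v]

theorem coeff_Q_le {n k : ℕ} (hn : 0 < n) (hV : Fintype.card V = n) (Z : Fin k → Finset V)
    (r : Fin k → V) : coeff (ind Finset.univ) (Q G Z r) ≤ (8 * n) ^ n := by
  have hn' : (0 : ℚ) < n := by exact_mod_cast hn
  have hn1 : (1 : ℚ) ≤ n := by exact_mod_cast hn
  set ρ : ℚ := 1 / (4 * n) with hρ
  have hρ0 : 0 < ρ := by positivity
  have h1 := eval_Q G (eval₂Hom (Nat.castRingHom ℚ) (fun _ : V => ρ)) Z r
  have h2 : (eval₂Hom (Nat.castRingHom ℚ) (fun _ : V => ρ)) (Q G Z r) ≤ 2 ^ n := by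
    rw [h1]
    have h3 : ∏ i, bw (adjB G) (fun u => if u ∈ allow Z i then
        (eval₂Hom (Nat.castRingHom ℚ) (fun _ : V => ρ)) (X u) else 0)
        (Fintype.card V) (r i) ≤ 1 := by
      refine Finset.prod_le_one (fun i _ => (bw_small _ n hn hV _ ?_ ?_ _ _).1)
        (fun i _ => (bw_small _ n hn hV _ ?_ ?_ _ _).2.trans ?_)
      · intro v
        split_ifs
        · simp [hρ0.le]
        · exact le_rfl
      · intro v
        split_ifs
        · simp [hρ]
        · positivity
      · intro v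
        split_ifs
        · simp [hρ0.le]
        · exact le_rfl
      · intro v
        split_ifs
        · simp [hρ]
        · positivity
      · rw [div_le_one (by positivity)]
        linarith
    have h4 : ∏ v ∈ free Z, (1 + (eval₂Hom (Nat.castRingHom ℚ) (fun _ : V => ρ)) (X v)) ≤
        2 ^ n := by
      calc ∏ v ∈ free Z, (1 + (eval₂Hom (Nat.castRingHom ℚ) (fun _ : V => ρ)) (X v))
          ≤ ∏ _v ∈ free Z, (2 : ℚ) := by
            refine Finset.prod_le_prod (fun v _ => ?_) (fun v _ => ?_)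
            · simp only [coe_eval₂Hom, eval₂_X]; linarith
            · simp only [coe_eval₂Hom, eval₂_X]
              have : ρ ≤ 1 := by
                rw [hρ, div_le_one (by positivity)]
                linarith
              linarith
        _ = 2 ^ (free Z).card := by rw [Finset.prod_const]
        _ ≤ 2 ^ n := pow_le_pow_right₀ (by norm_num) (by rw [← hV]; exact Finset.card_le_univ _)
    have h5 : 0 ≤ ∏ v ∈ free Z, (1 + (eval₂Hom (Nat.castRingHom ℚ) (fun _ : V => ρ)) (X v)) := by
      refine Finset.prod_nonneg fun v _ => ?_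
      simp only [coe_eval₂Hom, eval₂_X]; linarith
    calc _ ≤ 1 * ∏ v ∈ free Z, (1 + (eval₂Hom (Nat.castRingHom ℚ) (fun _ : V => ρ)) (X v)) :=
          mul_le_mul_of_nonneg_right h3 h5
      _ ≤ 2 ^ n := by rw [one_mul]; exact h4
  have h6 : ((coeff (ind Finset.univ) (Q G Z r) : ℕ) : ℚ) * ρ ^ n ≤
      (eval₂Hom (Nat.castRingHom ℚ) (fun _ : V => ρ)) (Q G Z r) := by
    rw [coe_eval₂Hom, eval₂_eq']
    by_cases h0 : coeff (ind Finset.univ) (Q G Z r) = 0
    · rw [h0]
      simp only [Nat.cast_zero, zero_mul]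
      refine Finset.sum_nonneg fun d _ => mul_nonneg ?_ (Finset.prod_nonneg fun i _ => by positivity)
      simp
    · have := Finset.single_le_sum (f := fun d => (Nat.castRingHom ℚ) (coeff d (Q G Z r)) *
        ∏ i : V, ρ ^ d i) (s := (Q G Z r).support) (fun d _ => mul_nonneg (by simp)
          (Finset.prod_nonneg fun i _ => by positivity)) (mem_support_iff.2 h0)
      refine le_trans (le_of_eq ?_) this
      simp [Finset.prod_const, hV]
  have h7 : ((coeff (ind Finset.univ) (Q G Z r) : ℕ) : ℚ) ≤ (8 * n) ^ n := by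
    have h8 : ((coeff (ind Finset.univ) (Q G Z r) : ℕ) : ℚ) * ρ ^ n ≤ 2 ^ n := h6.trans h2
    have h9 : ρ ^ n * (4 * n) ^ n = 1 := by
      rw [← mul_pow, hρ, one_div, inv_mul_cancel₀ (by positivity), one_pow]
    calc ((coeff (ind Finset.univ) (Q G Z r) : ℕ) : ℚ)
        = ((coeff (ind Finset.univ) (Q G Z r) : ℕ) : ℚ) * ρ ^ n * (4 * n) ^ n := by
          rw [mul_assoc, h9, mul_one]
      _ ≤ 2 ^ n * (4 * n) ^ n := mul_le_mul_of_nonneg_right h8 (by positivity)
      _ = (8 * n) ^ n := by rw [← mul_pow]; ring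
  exact_mod_cast h7

theorem coeff_Q_lt {n k : ℕ} (hn : 0 < n) (hV : Fintype.card V = n) (Z : Fin k → Finset V)
    (r : Fin k → V) : coeff (ind Finset.univ) (Q G Z r) < 2 ^ ((n + 3) * n + 1) := by
  refine (coeff_Q_le G hn hV Z r).trans_lt ?_
  have h : 8 * n ≤ 2 ^ (n + 3) := by
    rw [pow_add]
    have := (Nat.lt_two_pow_self (n := n)).le
    omega
  calc (8 * n) ^ n ≤ (2 ^ (n + 3)) ^ n := Nat.pow_le_pow_left h n
    _ = 2 ^ ((n + 3) * n) := by rw [pow_mul]
    _ < 2 ^ ((n + 3) * n + 1) := Nat.pow_lt_pow_right (by norm_num) (by omega)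

end Pool.Agent.H118R4.DCS
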