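import Pool.Agent.NPC.Dec

/-!
# Loops with exponentially many rounds: running time of iterating a polynomial-time function
-/

set_option autoImplicit false

namespace Pool.Agent.H118R4.DCS

open Pool.Agent.NPC
open Function (update)
open Turing

variable {σ : Type} [TEnc σ]

/-- read the flag of the state on stack `0`; if it is `false`, empty the control stack `1` -/
def tst : Cmd ℕ :=
  Cmd.seq (Cmd.pop 0) (Cmd.seq (Cmd.cases 0 Cmd.skip (Cmd.pop 1) Cmd.skip) (Cmd.push 0 true))

theorem bits_pair (b : Bool) (s : σ) :
    bits (b, s) = true :: (bits b ++ bits s) := rfl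

theorem tst_true (s : σ) : Runs tst (st (bits (true, s)) [true] []) (st (bits (true, s)) [true] [])
    4 := by
  have h1 := Runs.pop (st (bits (true, s)) [true] []) 0
  have h2 : Runs (Cmd.cases 0 Cmd.skip (Cmd.pop 1) Cmd.skip)
      (st (bits true ++ bits s) [true] []) (st (bits true ++ bits s) [true] []) 2 :=
    Runs.casesTrue (k := 0) (l := [false, false] ++ bits s) rfl (Runs.skip _)
  have h3 := Runs.push (st (bits true ++ bits s) [true] []) 0 true
  refine (h1.seq (Runs.seq (h2.conv (s₁ := _) ?_ rfl le_rfl) h3)).conv rfl ?_ (by omega)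
  · funext i
    match i with
    | 0 => simp [st, bits_pair]
    | 1 => simp [st]
    | 2 => simp [st]
    | n + 3 => simp [st]
  · funext i
    match i with
    | 0 => simp [st, bits_pair]
    | 1 => simp [st]
    | 2 => simp [st]
    | n + 3 => simp [st]

theorem tst_false (s : σ) : Runs tst (st (bits (false, s)) [true] [])
    (st (bits (false, s)) [] []) 4 := by
  have h1 := Runs.pop (st (bits (false, s)) [true] []) 0
  have h2 : Runs (Cmd.cases 0 Cmd.skip (Cmd.pop 1) Cmd.skip)
      (st (bits false ++ bits s) [true] []) (st (bits false ++ bits s) [] []) 2 := by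
    refine (Runs.casesFalse (k := 0) (l := bits s) rfl (Runs.pop _ 1)).conv rfl ?_ le_rfl
    funext i
    match i with
    | 0 => simp [st]
    | 1 => simp [st]
    | 2 => simp [st]
    | n + 3 => simp [st]
  have h3 := Runs.push (st (bits false ++ bits s) [] []) 0 true
  refine (h1.seq (Runs.seq (h2.conv (s₁ := _) ?_ rfl le_rfl) h3)).conv rfl ?_ (by omega)
  · funext i
    match i with
    | 0 => simp [st, bits_pair]
    | 1 => simp [st]
    | 2 => simp [st]
    | n + 3 => simp [st]
  · funext i
    match i with
    | 0 => simp [st, bits_pair]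
    | 1 => simp [st]
    | 2 => simp [st]
    | n + 3 => simp [st]

/-- Iterating a polynomial-time step until its flag is `false`: the time is the number of rounds
times a polynomial in the largest size of a state. -/
theorem while_runs {F : Bool × σ → Bool × σ} (hF : Poly F) :
    ∃ (c : Cmd ℕ) (p : Polynomial ℕ), ∀ (N : ℕ) (s : Bool × σ) (B : ℕ), 1 ≤ N →
      (∀ k < N, sz (F^[k] s) ≤ B) → (∀ k, 1 ≤ k → k < N → (F^[k] s).1 = true) →
      (F^[N] s).1 = false →
      Runs c (inp (bits s)) (inp (bits (F^[N] s))) (N * p.eval B) := by
  obtain ⟨d, p, hd⟩ := hF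
  have key : ∀ (N : ℕ) (s : Bool × σ) (B : ℕ), 1 ≤ N →
      (∀ k < N, sz (F^[k] s) ≤ B) → (∀ k, 1 ≤ k → k < N → (F^[k] s).1 = true) →
      (F^[N] s).1 = false →
      Runs (Cmd.loop 1 (Cmd.seq (ev d) tst)) (st (bits s) [true] []) (st (bits (F^[N] s)) [] [])
        (N * (p.eval B + 5) + 1) := by
    intro N
    induction N with
    | zero => intro s B h; omega
    | succ N ih =>
      intro s B _ hB ht hf
      have h1 := ev_runs (hd s) [true]
      have hlen : (bits s).length ≤ B := hB 0 (by omega)
      have h2 := h1.mono (eval_mono p hlen)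
      rcases Nat.eq_zero_or_pos N with h0 | h0
      · subst h0
        rw [Function.iterate_one] at hf ⊢
        have h3 := tst_false (F s).2
        have e : (false, (F s).2) = F s := by rw [← hf]
        rw [e] at h3
        have h4 : Runs (Cmd.loop 1 (Cmd.seq (ev d) tst)) (st (bits (F s)) [] [])
            (st (bits (F s)) [] []) 1 := Runs.loopNil rfl
        refine (Runs.loopCons (by simp [st]) (h2.seq h3) h4).mono ?_
        omega
      · have ht1 : (F s).1 = true := ht 1 le_rfl (by omega)
        have h3 := tst_true (F s).2
        have e : (true, (F s).2) = F s := by rw [← ht1]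
        rw [e] at h3
        have h4 := ih (F s) B h0 (fun k hk => by
            have := hB (k + 1) (by omega)
            rwa [Function.iterate_succ_apply] at this)
          (fun k hk hk' => by
            have := ht (k + 1) (by omega) (by omega)
            rwa [Function.iterate_succ_apply] at this)
          (by rwa [Function.iterate_succ_apply] at hf)
        rw [← Function.iterate_succ_apply] at h4
        refine (Runs.loopCons (by simp [st]) (h2.seq h3) h4).mono ?_
        rw [Nat.succ_mul]
        omega
  refine ⟨Cmd.seq (Cmd.push 1 true) (Cmd.loop 1 (Cmd.seq (ev d) tst)), p + Polynomial.C 7,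
    fun N s B hN hB ht hf => ?_⟩
  have h1 := Runs.push (inp (bits s)) 1 true
  have h2 := key N s B hN hB ht hf
  rw [inp_eq_st, inp_eq_st]
  refine (Runs.seq (h1.conv (s₁ := st (bits s) [] []) (s₁' := st (bits s) [true] []) ?_ ?_ le_rfl)
    h2).mono ?_
  · rw [inp_eq_st]
  · rw [inp_eq_st]
    funext i
    match i with
    | 0 => simp [st]
    | 1 => simp [st]
    | 2 => simp [st]
    | n + 3 => simp [st]
  · simp only [Polynomial.eval_add, Polynomial.eval_C]
    have : N * (p.eval B + 7) = N * (p.eval B + 5) + N * 2 := by ring
    omega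

end Pool.Agent.H118R4.DCS
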